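import Pool.Agent.MP_3d3bcd_pr.H93.Lagrange

set_option autoImplicit false

open Finset PowerSeries Filter Topology

namespace Pool.Agent.MP_3d3bcd_pr.H93

/-- normalised squared Catalan numbers -/
noncomputable def pp (m : ℕ) : ℝ := (catalan m : ℝ) ^ 2 / 16 ^ m

theorem catalan_pos (m : ℕ) : 0 < catalan m := by
  have h := succ_mul_catalan_eq_centralBinom m
  have := Nat.centralBinom_pos m
  rcases Nat.eq_zero_or_pos (catalan m) with h0 | h0
  · rw [h0] at h; omega
  · exact h0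

theorem pp_pos (m : ℕ) : 0 < pp m := by
  have : (0 : ℝ) < catalan m := by exact_mod_cast catalan_pos m
  unfold pp; positivity

theorem pp_zero : pp 0 = 1 := by simp [pp]

theorem pp_one : pp 1 = 1 / 16 := by simp [pp]

theorem catalan_rec (m : ℕ) :
    ((m : ℝ) + 2) * catalan (m + 1) = 2 * (2 * m + 1) * catalan m := by
  have h1 := succ_mul_catalan_eq_centralBinom m
  have h2 := succ_mul_catalan_eq_centralBinom (m + 1)
  have h3 := Nat.succ_mul_centralBinom_succ m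
  have h4 : (m + 1) * ((m + 2) * catalan (m + 1)) = (m + 1) * (2 * (2 * m + 1) * catalan m) := by
    rw [show m + 2 = m + 1 + 1 by ring, h2, h3, ← h1]; ring
  have h5 := Nat.eq_of_mul_eq_mul_left (Nat.succ_pos m) h4
  exact_mod_cast h5

theorem pp_succ (m : ℕ) : pp (m + 1) = pp m * ((2 * m + 1) / (2 * m + 4)) ^ 2 := by
  have h := catalan_rec m
  have h2 : (catalan (m + 1) : ℝ) = 2 * (2 * m + 1) * catalan m / (m + 2) := by
    rw [← h]; field_simp
  unfold pp
  rw [h2]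
  field_simp
  ring

theorem pp_anti : Antitone fun m : ℕ => pp m * ((m : ℝ) + 1) ^ 3 := by
  refine antitone_nat_of_succ_le fun m => ?_
  have hm : (0 : ℝ) ≤ m := Nat.cast_nonneg m
  have hp := pp_pos m
  rw [pp_succ, mul_assoc]
  refine mul_le_mul_of_nonneg_left ?_ hp.le
  push_cast
  rw [div_pow, div_mul_eq_mul_div, div_le_iff₀ (by positivity)]
  have : ((m : ℝ) + 1) ^ 3 * (2 * m + 4) ^ 2 - (2 * m + 1) ^ 2 * (m + 1 + 1) ^ 3 =
      (m + 2) ^ 2 * (3 * m + 2) := by ring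
  have : 0 ≤ ((m : ℝ) + 2) ^ 2 * (3 * m + 2) := by positivity
  linarith

theorem pp_mono : Monotone fun m : ℕ => pp m * (m : ℝ) ^ 3 := by
  refine monotone_nat_of_le_succ fun m => ?_
  have hm : (0 : ℝ) ≤ m := Nat.cast_nonneg m
  have hp := pp_pos m
  rw [pp_succ, mul_assoc]
  refine mul_le_mul_of_nonneg_left ?_ hp.le
  push_cast
  rw [div_pow, div_mul_eq_mul_div, le_div_iff₀ (by positivity)]
  have : (2 * (m : ℝ) + 1) ^ 2 * (m + 1) ^ 3 - m ^ 3 * (2 * m + 4) ^ 2 =
      9 * m ^ 3 + 19 * m ^ 2 + 7 * m + 1 := by ring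
  have : 0 ≤ 9 * (m : ℝ) ^ 3 + 19 * m ^ 2 + 7 * m + 1 := by positivity
  linarith

theorem pp_antitone : Antitone pp := by
  refine antitone_nat_of_succ_le fun m => ?_
  have hm : (0 : ℝ) ≤ m := Nat.cast_nonneg m
  have hp := pp_pos m
  rw [pp_succ]
  refine mul_le_of_le_one_right hp.le ?_
  refine pow_le_one₀ (by positivity) ?_
  rw [div_le_one (by positivity)]
  linarith

theorem pp_le (m : ℕ) : pp m * ((m : ℝ) + 1) ^ 3 ≤ 1 := by
  have := pp_anti (Nat.zero_le m)
  simpa [pp_zero] using this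

theorem pp_ge (m : ℕ) (hm : 1 ≤ m) : 1 / 16 ≤ pp m * (m : ℝ) ^ 3 := by
  have := pp_mono hm
  simpa [pp_one] using this

theorem sum_inv_sq_le (n : ℕ) : ∑ i ∈ range n, 1 / ((i : ℝ) + 1) ^ 2 ≤ 2 - 1 / ((n : ℝ) + 1 / 2) / 1 := by
  induction n with
  | zero => norm_num
  | succ n ih =>
    rw [sum_range_succ]
    have hn : (0 : ℝ) ≤ n := Nat.cast_nonneg n
    have : 1 / ((n : ℝ) + 1) ^ 2 ≤ 1 / ((n : ℝ) + 1 / 2) / 1 - 1 / (((n + 1 : ℕ) : ℝ) + 1 / 2) / 1 := by
      push_cast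
      rw [div_one, div_one, div_sub_div _ _ (by positivity) (by positivity),
        div_le_div_iff₀ (by positivity) (by positivity)]
      nlinarith
    linarith

theorem sum_inv_sq_le_two (n : ℕ) : ∑ i ∈ range n, 1 / ((i : ℝ) + 1) ^ 2 ≤ 2 := by
  have := sum_inv_sq_le n
  have h : 0 ≤ 1 / ((n : ℝ) + 1 / 2) / 1 := by positivity
  linarith

theorem succ_mul_pp_le (m : ℕ) : ((m : ℝ) + 1) * pp m ≤ 1 / ((m : ℝ) + 1) ^ 2 := by
  rw [le_div_iff₀ (by positivity)]
  have := pp_le m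
  linarith [show ((m : ℝ) + 1) * pp m * (m + 1) ^ 2 = pp m * (m + 1) ^ 3 by ring]

theorem pp_le' (m : ℕ) : pp m ≤ 1 / ((m : ℝ) + 1) ^ 2 := by
  have := succ_mul_pp_le m
  have h := pp_pos m
  have hm : (0 : ℝ) ≤ m := Nat.cast_nonneg m
  nlinarith

theorem mul_pp_le (m : ℕ) : (m : ℝ) * pp m ≤ 1 / ((m : ℝ) + 1) ^ 2 := by
  have := succ_mul_pp_le m
  have h := pp_pos m
  nlinarith

theorem summable_pp : Summable pp :=
  summable_of_sum_range_le (fun m => (pp_pos m).le)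
    (fun n => (sum_le_sum fun i _ => pp_le' i).trans (sum_inv_sq_le_two n))

theorem summable_mul_pp : Summable fun m : ℕ => (m : ℝ) * pp m :=
  summable_of_sum_range_le (fun m => mul_nonneg (Nat.cast_nonneg m) (pp_pos m).le)
    (fun n => (sum_le_sum fun i _ => mul_pp_le i).trans (sum_inv_sq_le_two n))

/-- total mass -/
noncomputable def S0 : ℝ := ∑' m, pp m

/-- first moment -/
noncomputable def S1 : ℝ := ∑' m : ℕ, (m : ℝ) * pp m

theorem S0_le : S0 ≤ 2 :=
  Real.tsum_le_of_sum_range_le (fun m => (pp_pos m).le)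
    (fun n => (sum_le_sum fun i _ => pp_le' i).trans (sum_inv_sq_le_two n))

theorem S1_le : S1 ≤ 2 :=
  Real.tsum_le_of_sum_range_le (fun m => mul_nonneg (Nat.cast_nonneg m) (pp_pos m).le)
    (fun n => (sum_le_sum fun i _ => mul_pp_le i).trans (sum_inv_sq_le_two n))

theorem one_le_S0 : 1 ≤ S0 := by
  have := summable_pp.le_tsum 0 (fun j _ => (pp_pos j).le)
  rwa [pp_zero] at this

theorem S0_pos : 0 < S0 := one_pos.trans_le one_le_S0

theorem S1_nonneg : 0 ≤ S1 :=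
  tsum_nonneg fun m => mul_nonneg (Nat.cast_nonneg m) (pp_pos m).le

/-- the power series of `pp` -/
noncomputable def PS : ℝ⟦X⟧ := PowerSeries.mk pp

/-- convolution powers -/
noncomputable def PP (j m : ℕ) : ℝ := coeff m (PS ^ j)

theorem coeff_MM_pow (j m : ℕ) : coeff m (MM ^ j) = 16 ^ m * PP j m := by
  have : MM = rescale 16 PS := by
    ext n
    rw [coeff_rescale, MM, PS, coeff_mk, coeff_mk, pp]
    field_simp
  rw [this, ← map_pow, coeff_rescale, PP]

theorem PP_succ (j m : ℕ) : PP (j + 1) m = ∑ s ∈ range (m + 1), PP j s * pp (m - s) := by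
  rw [PP, pow_succ, coeff_mul, Nat.sum_antidiagonal_eq_sum_range_succ_mk]
  simp [PP, PS]

theorem PP_zero (m : ℕ) : PP 0 m = if m = 0 then 1 else 0 := by
  rw [PP, pow_zero, coeff_one]

theorem PP_one (m : ℕ) : PP 1 m = pp m := by
  rw [PP, pow_one, PS, coeff_mk]

theorem PP_nonneg (j m : ℕ) : 0 ≤ PP j m := by
  induction j generalizing m with
  | zero => rw [PP_zero]; split_ifs <;> norm_num
  | succ j ih => rw [PP_succ]; exact sum_nonneg fun s _ => mul_nonneg (ih s) (pp_pos _).le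

theorem hasSum_conv {f g : ℕ → ℝ} {a b : ℝ} (hf : HasSum f a) (hg : HasSum g b) :
    HasSum (fun m => ∑ s ∈ range (m + 1), f s * g (m - s)) (a * b) := by
  have := hasSum_sum_range_mul_of_summable_norm hf.summable.norm hg.summable.norm
  rwa [hf.tsum_eq, hg.tsum_eq] at this

theorem hasSum_PP (j : ℕ) : HasSum (PP j) (S0 ^ j) := by
  induction j with
  | zero =>
    have : PP 0 = fun m => if m = 0 then 1 else 0 := funext PP_zero
    rw [this, pow_zero]
    exact hasSum_ite_eq 0 1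
  | succ j ih =>
    have := hasSum_conv ih summable_pp.hasSum
    rw [pow_succ]
    exact (funext (PP_succ j) : PP (j + 1) = _) ▸ this

theorem mul_PP_succ (k m : ℕ) : (m : ℝ) * PP (k + 1) m =
    (k + 1) * ∑ s ∈ range (m + 1), PP k s * (((m - s : ℕ) : ℝ) * pp (m - s)) := by
  have h := congrArg (coeff m) (EE_pow_succ PS k)
  rw [coeff_EE, show ((k : ℝ⟦X⟧) + 1) = C ((k : ℝ) + 1) by rw [map_add, map_natCast, map_one],
    mul_assoc, coeff_C_mul, coeff_mul, Nat.sum_antidiagonal_eq_sum_range_succ_mk] at h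
  rw [PP, h]
  congr 1
  refine sum_congr rfl fun s _ => ?_
  rw [coeff_EE, PP]
  simp [PS]

theorem hasSum_mul_PP (k : ℕ) :
    HasSum (fun m : ℕ => (m : ℝ) * PP k m) (k * S0 ^ k * (S1 / S0)) := by
  cases k with
  | zero =>
    have : (fun m : ℕ => (m : ℝ) * PP 0 m) = fun _ => 0 := by
      ext m; rw [PP_zero]; split_ifs with h <;> simp [h]
    rw [this]; simp
  | succ k =>
    have := (hasSum_conv (hasSum_PP k) summable_mul_pp.hasSum).mul_left ((k : ℝ) + 1)
    have e : ((k + 1 : ℕ) : ℝ) * S0 ^ (k + 1) * (S1 / S0) = ((k : ℝ) + 1) * (S0 ^ k * S1) := by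
      have := S0_pos
      push_cast; field_simp; ring
    rw [e]
    exact (funext (mul_PP_succ k) : (fun m : ℕ => (m : ℝ) * PP (k + 1) m) = _) ▸ this

theorem PP_le (j m : ℕ) : PP j m ≤ S0 ^ j :=
  le_hasSum (hasSum_PP j) m fun s _ => PP_nonneg j s

/-- mean of the normalised law -/
noncomputable def mu : ℝ := S1 / S0

theorem mu_nonneg : 0 ≤ mu := div_nonneg S1_nonneg S0_pos.le

theorem mu_le : mu ≤ 2 := by
  rw [mu, div_le_iff₀ S0_pos]
  linarith [S1_le, one_le_S0]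

/-- the one-big-jump ratio -/
noncomputable def BB (k m : ℕ) : ℝ := PP (k + 1) m / ((k + 1) * S0 ^ k * pp m)

theorem BB_zero (m : ℕ) : BB 0 m = 1 := by
  have := pp_pos m
  rw [BB, PP_one]; simp [this.ne']

theorem BB_nonneg (k m : ℕ) : 0 ≤ BB k m := by
  have := pp_pos m
  have := S0_pos
  exact div_nonneg (PP_nonneg _ _) (by positivity)

theorem PP_eq (k m : ℕ) : PP (k + 1) m = BB k m * ((k + 1) * S0 ^ k * pp m) := by
  have := pp_pos m
  have := S0_pos
  rw [BB]; field_simp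

/-- the size-biased ratio -/
noncomputable def rr (m s : ℕ) : ℝ := ((m - s : ℕ) : ℝ) * pp (m - s) / (m * pp m)

theorem BB_eq (k m : ℕ) (hm : 1 ≤ m) :
    BB k m * S0 ^ k = ∑ s ∈ range (m + 1), PP k s * rr m s := by
  have h := mul_PP_succ k m
  have := pp_pos m
  have := S0_pos
  have hm' : (0 : ℝ) < m := by exact_mod_cast hm
  have e : ∑ s ∈ range (m + 1), PP k s * rr m s =
      (∑ s ∈ range (m + 1), PP k s * (((m - s : ℕ) : ℝ) * pp (m - s))) / (m * pp m) := by
    rw [sum_div]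
    exact sum_congr rfl fun s _ => by rw [rr]; ring
  rw [e, eq_div_iff (by positivity)]
  rw [PP_eq] at h
  have hk : (0 : ℝ) < (k : ℝ) + 1 := by positivity
  apply mul_left_cancel₀ hk.ne'
  linear_combination h

theorem rr_ge (m s : ℕ) (hm : 1 ≤ m) (hs : s ≤ m) : 1 - (s : ℝ) / m ≤ rr m s := by
  have h1 := pp_pos m
  have hm' : (0 : ℝ) < m := by exact_mod_cast hm
  have h2 : pp m ≤ pp (m - s) := pp_antitone (Nat.sub_le m s)
  have h3 : (s : ℝ) ≤ m := by exact_mod_cast hs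
  rw [rr, le_div_iff₀ (by positivity), Nat.cast_sub hs]
  have : (1 - (s : ℝ) / m) * (m * pp m) = (m - s) * pp m := by field_simp
  rw [this]
  exact mul_le_mul_of_nonneg_left h2 (by linarith)

theorem rr_le (m s : ℕ) (hm : 1 ≤ m) (hs : 2 * s ≤ m) : rr m s ≤ 1 + 6 * ((s : ℝ) / m) := by
  have h1 := pp_pos m
  have hm' : (0 : ℝ) < m := by exact_mod_cast hm
  have h2 := pp_mono (Nat.sub_le m s)
  have h3 : 2 * (s : ℝ) ≤ m := by exact_mod_cast hs
  have hs0 : (0 : ℝ) ≤ s := Nat.cast_nonneg s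
  have h4 := pp_pos (m - s)
  simp only at h2
  rw [rr, div_le_iff₀ (by positivity)]
  rw [Nat.cast_sub (by omega)] at h2 ⊢
  have : (1 + 6 * ((s : ℝ) / m)) * (m * pp m) = (m + 6 * s) * pp m := by field_simp
  rw [this]
  have h5 : (0 : ℝ) < m - s := by linarith
  have h6 : (m : ℝ) ^ 3 ≤ (m + 6 * s) * (m - s) ^ 2 := by
    have : ((m : ℝ) + 6 * s) * (m - s) ^ 2 - m ^ 3 = s * ((m - 2 * s) * (4 * m - 3 * s)) := by ring
    have : 0 ≤ (s : ℝ) * ((m - 2 * s) * (4 * m - 3 * s)) :=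
      mul_nonneg hs0 (mul_nonneg (by linarith) (by linarith))
    linarith
  have h7 : ((m : ℝ) - s) * pp (m - s) * (m - s) ^ 2 ≤ (m + 6 * s) * pp m * (m - s) ^ 2 := by
    nlinarith
  exact le_of_mul_le_mul_right h7 (by positivity)

theorem pp_le_eight (m s : ℕ) (hs : m ≤ 2 * s) (hsm : s ≤ m) (hm : 1 ≤ m) : pp s ≤ 8 * pp m := by
  have h2 := pp_mono hsm
  simp only at h2
  have h1 := pp_pos m
  have h3 : (m : ℝ) ≤ 2 * s := by exact_mod_cast hs
  have hm' : (0 : ℝ) < m := by exact_mod_cast hm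
  have h4 : (m : ℝ) ^ 3 ≤ (2 * s) ^ 3 := pow_le_pow_left₀ hm'.le h3 3
  have h5 : (0 : ℝ) < s := by linarith
  have : pp s * (s : ℝ) ^ 3 ≤ 8 * pp m * (s : ℝ) ^ 3 := by nlinarith
  exact le_of_mul_le_mul_right this (by positivity)

theorem BB_ge (k m : ℕ) (hm : 1 ≤ m) : 1 - k * mu / m ≤ BB k m := by
  have hm' : (0 : ℝ) < m := by exact_mod_cast hm
  have hS : 0 < S0 ^ k := pow_pos S0_pos k
  have h1 : HasSum (fun s : ℕ => PP k s * (1 - (s : ℝ) / m)) ((1 - k * mu / m) * S0 ^ k) := by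
    have := (hasSum_PP k).sub ((hasSum_mul_PP k).div_const m)
    have e1 : (fun s : ℕ => PP k s * (1 - (s : ℝ) / m)) = fun b : ℕ => PP k b - b * PP k b / m := by
      ext s; ring
    have e2 : (1 - k * mu / m) * S0 ^ k = S0 ^ k - k * S0 ^ k * (S1 / S0) / m := by
      rw [mu]; ring
    rw [e1, e2]
    exact this
  have h2 : (1 - k * mu / m) * S0 ^ k ≤ ∑ s ∈ range (m + 1), PP k s * (1 - (s : ℝ) / m) := by
    have := sum_le_hasSum (range (m + 1)) (fun s hs => ?_) h1.neg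
    · rw [sum_neg_distrib] at this
      linarith
    · have : m + 1 ≤ s := by simpa using hs
      have h3 : (m : ℝ) ≤ s := by exact_mod_cast (by omega : m ≤ s)
      have h4 : 1 - (s : ℝ) / m ≤ 0 := by
        rw [sub_nonpos, le_div_iff₀ hm']; linarith
      have := PP_nonneg k s
      nlinarith
  have h3 : (1 - k * mu / m) * S0 ^ k ≤ BB k m * S0 ^ k := by
    rw [BB_eq k m hm]
    refine h2.trans (sum_le_sum fun s hs => ?_)
    exact mul_le_mul_of_nonneg_left (rr_ge m s hm (Nat.lt_succ_iff.1 (mem_range.1 hs)))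
      (PP_nonneg k s)
  exact le_of_mul_le_mul_right h3 hS

theorem BB_crude (k m : ℕ) (hm : 1 ≤ m) : BB k m ≤ 32 * (m : ℝ) ^ 3 := by
  have h1 := pp_pos m
  have h2 := pp_ge m hm
  have hS := S0_pos
  have hS2 := S0_le
  have hk : (0 : ℝ) ≤ k := Nat.cast_nonneg k
  have hSk : 0 < S0 ^ k := pow_pos hS k
  rw [BB, div_le_iff₀ (by positivity)]
  refine (PP_le _ _).trans ?_
  rw [pow_succ]
  have : S0 ≤ 32 * (m : ℝ) ^ 3 * ((k + 1) * pp m) := by nlinarith
  nlinarith

theorem far_term (k m s : ℕ) (B : ℝ) (hm : 1 ≤ m) (hs : m ≤ 2 * s) (hsm : s ≤ m)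
    (hB : BB k s ≤ B) : PP (k + 1) s / pp m ≤ 8 * B * (k + 1) * S0 ^ k := by
  have h1 := pp_pos m
  have hS := S0_pos
  have h2 := pp_le_eight m s hs hsm hm
  have h3 := BB_nonneg k s
  have h4 := pp_pos s
  rw [div_le_iff₀ h1, PP_eq]
  calc BB k s * ((k + 1) * S0 ^ k * pp s) ≤ B * ((k + 1) * S0 ^ k * (8 * pp m)) := by
        gcongr
        exact h3.trans hB
    _ = _ := by ring

theorem BB_le_step (k m : ℕ) (B : ℝ) (hm : 1 ≤ m) (hB0 : 0 ≤ B)
    (hB : ∀ s, m ≤ 2 * s → s ≤ m → BB k s ≤ B) :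
    BB (k + 1) m ≤ 1 + (12 + 16 * B) * (k + 1) / m := by
  have hm' : (0 : ℝ) < m := by exact_mod_cast hm
  have hS := S0_pos
  have hSk : 0 < S0 ^ (k + 1) := pow_pos hS _
  have hpm := pp_pos m
  have h1 : HasSum (fun s : ℕ => PP (k + 1) s * (1 + 6 * ((s : ℝ) / m)))
      ((1 + 6 * (k + 1) * mu / m) * S0 ^ (k + 1)) := by
    have := (hasSum_PP (k + 1)).add (((hasSum_mul_PP (k + 1)).div_const m).mul_left 6)
    convert this using 1
    · ext s; ring
    · rw [mu]; push_cast; ring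
  have h2 : ∑ s ∈ range (m + 1), PP (k + 1) s * (1 + 6 * ((s : ℝ) / m)) ≤
      (1 + 6 * (k + 1) * mu / m) * S0 ^ (k + 1) :=
    sum_le_hasSum _ (fun s _ => mul_nonneg (PP_nonneg _ _) (by positivity)) h1
  have h3 : ∑ s ∈ range (m + 1), ((m - s : ℕ) : ℝ) * pp (m - s) ≤ S1 := by
    have := sum_range_reflect (fun i : ℕ => (i : ℝ) * pp i) (m + 1)
    simp only [Nat.add_sub_cancel] at this
    rw [this]
    exact sum_le_hasSum _ (fun s _ => mul_nonneg (Nat.cast_nonneg s) (pp_pos s).le)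
      summable_mul_pp.hasSum
  have h4 : ∀ s ∈ range (m + 1), PP (k + 1) s * rr m s ≤
      PP (k + 1) s * (1 + 6 * ((s : ℝ) / m)) +
        8 * B * (k + 1) * S0 ^ k / m * (((m - s : ℕ) : ℝ) * pp (m - s)) := by
    intro s hs
    have hsm : s ≤ m := Nat.lt_succ_iff.1 (mem_range.1 hs)
    have hq : 0 ≤ ((m - s : ℕ) : ℝ) * pp (m - s) := mul_nonneg (Nat.cast_nonneg _) (pp_pos _).le
    have hP := PP_nonneg (k + 1) s
    by_cases h : 2 * s ≤ m
    · refine le_add_of_le_of_nonneg (mul_le_mul_of_nonneg_left (rr_le m s hm h) hP) ?_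
      positivity
    · refine le_add_of_nonneg_of_le (by positivity) ?_
      have := far_term k m s B hm (by omega) hsm (hB s (by omega) hsm)
      calc PP (k + 1) s * rr m s
          = PP (k + 1) s / pp m / m * (((m - s : ℕ) : ℝ) * pp (m - s)) := by
            rw [rr]; field_simp
        _ ≤ _ := by gcongr
  have h5 : BB (k + 1) m * S0 ^ (k + 1) ≤ (1 + (12 + 16 * B) * (k + 1) / m) * S0 ^ (k + 1) := by
    rw [BB_eq (k + 1) m hm]
    refine (sum_le_sum h4).trans ?_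
    rw [sum_add_distrib, ← mul_sum]
    have e1 : 8 * B * (k + 1) * S0 ^ k / m * S1 = 8 * B * (k + 1) * mu / m * S0 ^ (k + 1) := by
      rw [mu]; field_simp; ring
    have e2 : 8 * B * (k + 1) * S0 ^ k / m * ∑ s ∈ range (m + 1), ((m - s : ℕ) : ℝ) * pp (m - s) ≤
        8 * B * (k + 1) * S0 ^ k / m * S1 := by gcongr
    have e3 : 6 * ((k : ℝ) + 1) * mu / m + 8 * B * (k + 1) * mu / m ≤ (12 + 16 * B) * (k + 1) / m := by
      rw [← add_div]
      gcongr
      have := mu_le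
      have : (0 : ℝ) ≤ (6 + 8 * B) * (k + 1) := by positivity
      nlinarith
    nlinarith
  exact le_of_mul_le_mul_right h5 hSk

theorem BB_poly (e : ℕ) (he : e ≤ 6) : ∀ K : ℝ, 0 ≤ K → ∃ C : ℝ, 0 ≤ C ∧ ∀ k m : ℕ, 1 ≤ m →
    (k : ℝ) ≤ K * √m → BB k m ≤ C * √m ^ (6 - e) := by
  induction e with
  | zero =>
    intro K _
    refine ⟨32, by norm_num, fun k m hm _ => ?_⟩
    have : √(m : ℝ) ^ (6 - 0) = (m : ℝ) ^ 3 := by
      rw [show 6 - 0 = 2 * 3 by rfl, pow_mul, Real.sq_sqrt (Nat.cast_nonneg m)]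
    rw [this]
    exact BB_crude k m hm
  | succ e ih =>
    intro K hK
    obtain ⟨C, hC, h⟩ := ih (by omega) (2 * K) (by positivity)
    refine ⟨1 + (12 + 16 * C) * K, by positivity, fun k m hm hk => ?_⟩
    have hm' : (1 : ℝ) ≤ m := by exact_mod_cast hm
    have hs1 : 1 ≤ √(m : ℝ) := Real.one_le_sqrt.2 hm'
    have hp1 : 1 ≤ √(m : ℝ) ^ (6 - (e + 1)) := one_le_pow₀ hs1
    have hKC : 0 ≤ (12 + 16 * C) * K := by positivity
    cases k with
    | zero => rw [BB_zero]; nlinarith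
    | succ k =>
      have hstep := BB_le_step k m (C * √m ^ (6 - e)) hm (by positivity) (fun s hs hsm => by
        have hs1 : 1 ≤ s := by omega
        have h1 : √(m : ℝ) ≤ 2 * √s := by
          rw [Real.sqrt_le_left (by positivity), mul_pow, Real.sq_sqrt (Nat.cast_nonneg s)]
          have : (m : ℝ) ≤ 2 * s := by exact_mod_cast hs
          have : (0 : ℝ) ≤ s := Nat.cast_nonneg s
          linarith
        have h2 : (k : ℝ) ≤ 2 * K * √s := by
          push_cast at hk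
          nlinarith
        refine (h k s hs1 h2).trans ?_
        gcongr)
      refine hstep.trans ?_
      have e1 : √(m : ℝ) ^ (6 - e) = √(m : ℝ) ^ (6 - (e + 1)) * √m := by
        rw [← pow_succ]; congr 1; omega
      have e2 : √(m : ℝ) * √m = m := Real.mul_self_sqrt (Nat.cast_nonneg m)
      push_cast at hk
      set t := √(m : ℝ) with ht
      set w := t ^ (6 - (e + 1)) with hw
      have e3 : (12 + 16 * (C * t ^ (6 - e))) * ((k : ℝ) + 1) / m ≤ (12 + 16 * C) * K * w := by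
        rw [div_le_iff₀ (by linarith), e1, ← e2]
        have f1 : 12 + 16 * (C * (w * t)) ≤ (12 + 16 * C) * (w * t) := by nlinarith
        calc (12 + 16 * (C * (w * t))) * ((k : ℝ) + 1) ≤ (12 + 16 * C) * (w * t) * (K * t) := by
              gcongr
          _ = _ := by ring
      nlinarith

theorem BB_bdd (K : ℝ) (hK : 0 ≤ K) : ∃ C : ℝ, 0 ≤ C ∧ ∀ k m : ℕ, 1 ≤ m →
    (k : ℝ) ≤ K * √m → BB k m ≤ C := by
  simpa using BB_poly 6 le_rfl K hK

theorem BB_close (K : ℝ) (hK : 0 ≤ K) : ∃ C : ℝ, 0 ≤ C ∧ ∀ k m : ℕ, 1 ≤ m →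
    (k : ℝ) ≤ K * √m → |BB k m - 1| ≤ C / √m := by
  obtain ⟨C, hC, h⟩ := BB_bdd (2 * K) (by positivity)
  refine ⟨(12 + 16 * C) * K, by positivity, fun k m hm hk => ?_⟩
  have hm' : (1 : ℝ) ≤ m := by exact_mod_cast hm
  have hs1 : 1 ≤ √(m : ℝ) := Real.one_le_sqrt.2 hm'
  have e2 : √(m : ℝ) * √m = m := Real.mul_self_sqrt (Nat.cast_nonneg m)
  have key : (12 + 16 * C) * (k : ℝ) / m ≤ (12 + 16 * C) * K / √m := by
    rw [div_le_div_iff₀ (by linarith) (by linarith)]
    calc (12 + 16 * C) * (k : ℝ) * √m ≤ (12 + 16 * C) * (K * √m) * √m := by gcongr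
      _ = (12 + 16 * C) * K * (√m * √m) := by ring
      _ = _ := by rw [e2]
  rw [abs_le]
  constructor
  · have h1 := BB_ge k m hm
    have h2 : (k : ℝ) * mu / m ≤ (12 + 16 * C) * (k : ℝ) / m := by
      gcongr ?_ / _
      have := mu_le
      have : (0 : ℝ) ≤ k := Nat.cast_nonneg k
      nlinarith
    linarith
  · cases k with
    | zero => rw [BB_zero, sub_self]; positivity
    | succ k =>
      have hstep := BB_le_step k m C hm hC (fun s hs hsm => by
        have hs1 : 1 ≤ s := by omega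
        have h1 : √(m : ℝ) ≤ 2 * √s := by
          rw [Real.sqrt_le_left (by positivity), mul_pow, Real.sq_sqrt (Nat.cast_nonneg s)]
          have : (m : ℝ) ≤ 2 * s := by exact_mod_cast hs
          have : (0 : ℝ) ≤ s := Nat.cast_nonneg s
          linarith
        have h2 : (k : ℝ) ≤ 2 * K * √s := by
          push_cast at hk
          nlinarith
        exact h k s hs1 h2)
      push_cast at key
      linarith

end Pool.Agent.MP_3d3bcd_pr.H93
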