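import Mathlib

set_option autoImplicit false

open MeasureTheory ProbabilityTheory Filter Topology Set

namespace Pool.Agent.MP_3d3bcd_pr.H93

theorem eq_gaussian_of_mgf_pos (ν : Measure ℝ) [IsProbabilityMeasure ν]
    (hint : ∀ θ : ℝ, 0 < θ → Integrable (fun x => Real.exp (θ * x)) ν)
    (h : ∀ θ : ℝ, 0 < θ → ∫ x, Real.exp (θ * x) ∂ν = Real.exp (θ ^ 2 / 2)) :
    ν = gaussianReal 0 1 := by
  set U : Set ℂ := {z | 0 < z.re} with hU
  have hsub : Ioi (0 : ℝ) ⊆ interior (integrableExpSet id ν) :=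
    interior_maximal (fun θ hθ => hint θ hθ) isOpen_Ioi
  have hA : AnalyticOnNhd ℂ (complexMGF id ν) U :=
    analyticOnNhd_complexMGF.mono fun z hz => hsub hz
  have hB : AnalyticOnNhd ℂ (fun z : ℂ => Complex.exp (z ^ 2 / 2)) U := fun z _ => by fun_prop
  have hconn : IsPreconnected U :=
    ((convex_Ioi (0 : ℝ)).linear_preimage Complex.reLm).isPreconnected
  have hEq : EqOn (complexMGF id ν) (fun z : ℂ => Complex.exp (z ^ 2 / 2)) U := by
    refine hA.eqOn_of_preconnected_of_frequently_eq hB hconn (z₀ := 1) (by simp [hU]) ?_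
    rw [frequently_iff_seq_forall]
    refine ⟨fun n => ((1 + 1 / ((n : ℝ) + 1) : ℝ) : ℂ), ?_, fun n => ?_⟩
    · rw [tendsto_nhdsWithin_iff]
      constructor
      · have := (tendsto_one_div_add_atTop_nhds_zero_nat (𝕜 := ℝ)).const_add 1
        rw [add_zero] at this
        exact (Complex.continuous_ofReal.tendsto 1).comp this
      · refine Eventually.of_forall fun n => ?_
        have : (0 : ℝ) < 1 / ((n : ℝ) + 1) := Nat.one_div_pos_of_nat
        intro hc
        have hc1 : ((1 + 1 / ((n : ℝ) + 1) : ℝ) : ℂ) = ((1 : ℝ) : ℂ) := hc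
        have hc' : (1 + 1 / ((n : ℝ) + 1) : ℝ) = 1 := Complex.ofReal_injective hc1
        linarith
    · have : (0 : ℝ) < 1 / ((n : ℝ) + 1) := Nat.one_div_pos_of_nat
      rw [complexMGF_ofReal, mgf]
      simp only [id]
      rw [h _ (by linarith)]
      push_cast
      rfl
  refine Measure.ext_of_charFun (funext fun t => ?_)
  rw [charFun_gaussianReal, ← complexMGF_id_mul_I]
  set a : ℕ → ℝ := fun n => 1 / ((n : ℝ) + 1) with ha
  have ha0 : Tendsto a atTop (𝓝 0) := tendsto_one_div_add_atTop_nhds_zero_nat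
  have hapos : ∀ n, 0 < a n := fun n => Nat.one_div_pos_of_nat
  have ha1 : ∀ n, a n ≤ 1 := fun n => by
    simp only [ha]
    rw [div_le_one (by positivity)]
    linarith [(Nat.cast_nonneg n : (0 : ℝ) ≤ n)]
  have hz : Tendsto (fun n => (a n : ℂ) + t * Complex.I) atTop (𝓝 (t * Complex.I)) := by
    have := ((Complex.continuous_ofReal.tendsto 0).comp ha0).add_const (t * Complex.I)
    simpa using this
  have l1 : Tendsto (fun n => complexMGF id ν ((a n : ℂ) + t * Complex.I)) atTop
      (𝓝 (complexMGF id ν (t * Complex.I))) := by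
    simp only [complexMGF, id]
    refine tendsto_integral_of_dominated_convergence (fun x => 1 + Real.exp (1 * x))
      (fun n => by fun_prop) ((integrable_const 1).add (hint 1 one_pos)) (fun n => ?_) ?_
    · refine Eventually.of_forall fun x => ?_
      rw [Complex.norm_exp]
      have e : (((a n : ℂ) + t * Complex.I) * x).re = a n * x := by simp
      rw [e]
      rcases le_total x 0 with hx | hx
      · have : Real.exp (a n * x) ≤ 1 :=
          Real.exp_le_one_iff.2 (mul_nonpos_of_nonneg_of_nonpos (hapos n).le hx)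
        linarith [Real.exp_pos (1 * x)]
      · have : Real.exp (a n * x) ≤ Real.exp (1 * x) :=
          Real.exp_le_exp.2 (mul_le_mul_of_nonneg_right (ha1 n) hx)
        linarith
    · refine Eventually.of_forall fun x => ?_
      exact (Complex.continuous_exp.tendsto _).comp (hz.mul_const (x : ℂ))
  have l2 : Tendsto (fun n => complexMGF id ν ((a n : ℂ) + t * Complex.I)) atTop
      (𝓝 (Complex.exp ((t * Complex.I) ^ 2 / 2))) := by
    have : Tendsto (fun n => Complex.exp (((a n : ℂ) + t * Complex.I) ^ 2 / 2)) atTop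
        (𝓝 (Complex.exp ((t * Complex.I) ^ 2 / 2))) :=
      (Complex.continuous_exp.tendsto _).comp ((hz.pow 2).div_const 2)
    refine this.congr fun n => (hEq ?_).symm
    simp [hU, hapos n]
  rw [tendsto_nhds_unique l1 l2]
  congr 1
  rw [mul_pow, Complex.I_sq]
  simp
  ring

/-- truncated exponential -/
noncomputable def truncExp (θ R : ℝ) : BoundedContinuousFunction ℝ ℝ :=
  BoundedContinuousFunction.ofNormedAddCommGroup (fun x => min (Real.exp (θ * x)) |R|)
    (by fun_prop) |R| (fun x => by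
      rw [Real.norm_eq_abs, abs_of_nonneg (le_min (Real.exp_pos _).le (abs_nonneg R))]
      exact min_le_right _ _)

theorem truncExp_apply (θ R x : ℝ) : truncExp θ R x = min (Real.exp (θ * x)) |R| := rfl

theorem limit_mgf (ν : ℕ → ProbabilityMeasure ℝ) (μ : ProbabilityMeasure ℝ)
    (hlim : Tendsto ν atTop (𝓝 μ))
    (hint : ∀ n, ∀ θ : ℝ, 0 < θ → Integrable (fun x => Real.exp (θ * x)) (ν n))
    (h : ∀ θ : ℝ, 0 < θ →
      Tendsto (fun n => ∫ x, Real.exp (θ * x) ∂(ν n)) atTop (𝓝 (Real.exp (θ ^ 2 / 2))))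
    (θ : ℝ) (hθ : 0 < θ) :
    Integrable (fun x => Real.exp (θ * x)) μ ∧
      ∫ x, Real.exp (θ * x) ∂μ = Real.exp (θ ^ 2 / 2) := by
  set E := Real.exp (θ ^ 2 / 2) with hE
  set E2 := Real.exp ((2 * θ) ^ 2 / 2) with hE2
  have hb : ∀ R : ℝ, 0 < R → E - E2 / R ≤ ∫ x, truncExp θ R x ∂μ ∧ ∫ x, truncExp θ R x ∂μ ≤ E := by
    intro R hR
    have l := ProbabilityMeasure.tendsto_iff_forall_integral_tendsto.1 hlim (truncExp θ R)
    constructor
    · refine le_of_tendsto_of_tendsto' ((h θ hθ).sub ((h (2 * θ) (by positivity)).div_const R)) l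
        fun n => ?_
      rw [← integral_div, ← integral_sub (hint n θ hθ) ((hint n _ (by positivity)).div_const R)]
      refine integral_mono ((hint n θ hθ).sub ((hint n _ (by positivity)).div_const R))
        ((truncExp θ R).integrable _) fun x => ?_
      simp only [truncExp_apply, abs_of_pos hR]
      have e : Real.exp (2 * θ * x) = Real.exp (θ * x) ^ 2 := by
        rw [← Real.exp_nat_mul]; congr 1; push_cast; ring
      rw [e]
      have hp := Real.exp_pos (θ * x)
      set y := Real.exp (θ * x)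
      refine le_min (by have : 0 ≤ y ^ 2 / R := by positivity
                        linarith) ?_
      rw [sub_le_iff_le_add, ← sub_le_iff_le_add', le_div_iff₀ hR]
      nlinarith [sq_nonneg (y - R)]
    · refine le_of_tendsto_of_tendsto' l (h θ hθ) fun n => ?_
      refine integral_mono ((truncExp θ R).integrable _) (hint n θ hθ) fun x => ?_
      exact min_le_left _ _
  have hc : Tendsto (fun k : ℕ => ∫ x, truncExp θ ((k : ℝ) + 1) x ∂μ) atTop (𝓝 E) := by
    have h0 : Tendsto (fun k : ℕ => E - E2 / ((k : ℝ) + 1)) atTop (𝓝 E) := by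
      have := ((tendsto_one_div_add_atTop_nhds_zero_nat (𝕜 := ℝ)).const_mul E2).const_sub E
      simpa [div_eq_mul_inv] using this
    exact tendsto_of_tendsto_of_tendsto_of_le_of_le h0 tendsto_const_nhds
      (fun k => (hb _ (by positivity)).1) (fun k => (hb _ (by positivity)).2)
  have hpt : ∀ x, Tendsto (fun k : ℕ => truncExp θ ((k : ℝ) + 1) x) atTop
      (𝓝 (Real.exp (θ * x))) := by
    intro x
    refine tendsto_const_nhds.congr' ?_
    filter_upwards [(tendsto_natCast_atTop_atTop (R := ℝ)).eventually_ge_atTop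
      (Real.exp (θ * x))] with k hk
    rw [truncExp_apply, abs_of_pos (by positivity), min_eq_left (by linarith)]
  have hnn : ∀ (k : ℕ) x, 0 ≤ truncExp θ ((k : ℝ) + 1) x := fun k x =>
    le_min (Real.exp_pos _).le (abs_nonneg _)
  have hI : Integrable (fun x => Real.exp (θ * x)) μ := by
    refine ⟨by fun_prop, ?_⟩
    rw [hasFiniteIntegral_iff_ofReal (Eventually.of_forall fun x => (Real.exp_pos _).le)]
    calc ∫⁻ x, ENNReal.ofReal (Real.exp (θ * x)) ∂μ
        = ∫⁻ x, liminf (fun k : ℕ => ENNReal.ofReal (truncExp θ ((k : ℝ) + 1) x)) atTop ∂μ := by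
          refine lintegral_congr fun x => ?_
          exact ((ENNReal.continuous_ofReal.tendsto _).comp (hpt x)).liminf_eq.symm
      _ ≤ liminf (fun k : ℕ => ∫⁻ x, ENNReal.ofReal (truncExp θ ((k : ℝ) + 1) x) ∂μ) atTop :=
          lintegral_liminf_le fun k => by fun_prop
      _ = ENNReal.ofReal E := by
          have := ((ENNReal.continuous_ofReal.tendsto _).comp hc).liminf_eq
          rw [← this]
          congr 1
          ext k
          simp only [Function.comp]
          rw [ofReal_integral_eq_lintegral_ofReal ((truncExp θ _).integrable _)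
            (Eventually.of_forall (hnn k))]
      _ < ⊤ := ENNReal.ofReal_lt_top
  refine ⟨hI, tendsto_nhds_unique ?_ hc⟩
  refine tendsto_integral_of_dominated_convergence (fun x => Real.exp (θ * x))
    (fun k => by fun_prop) hI (fun k => Eventually.of_forall fun x => ?_)
    (Eventually.of_forall hpt)
  rw [Real.norm_eq_abs, abs_of_nonneg (hnn k x)]
  exact min_le_left _ _

theorem tendsto_gaussian_of_mgf_pos (ν : ℕ → ProbabilityMeasure ℝ)
    (hsq : ∀ n, Integrable (fun x : ℝ => x ^ 2) (ν n : Measure ℝ))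
    (hsq1 : ∀ n, ∫ x : ℝ, x ^ 2 ∂(ν n : Measure ℝ) ≤ 1)
    (hint : ∀ n, ∀ θ : ℝ, 0 < θ → Integrable (fun x => Real.exp (θ * x)) (ν n))
    (h : ∀ θ : ℝ, 0 < θ →
      Tendsto (fun n => ∫ x, Real.exp (θ * x) ∂(ν n)) atTop (𝓝 (Real.exp (θ ^ 2 / 2)))) :
    Tendsto ν atTop (𝓝 (⟨gaussianReal 0 1, inferInstance⟩ : ProbabilityMeasure ℝ)) := by
  have htight : IsTightMeasureSet {((μ : ProbabilityMeasure ℝ) : Measure ℝ) | μ ∈ range ν} := by
    apply isTightMeasureSet_of_tendsto_measure_norm_gt
    have h0 : Tendsto (fun r : ℝ => ENNReal.ofReal ((r ^ 2)⁻¹)) atTop (𝓝 0) := by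
      have := (ENNReal.continuous_ofReal.tendsto _).comp
        (tendsto_inv_atTop_zero.comp (tendsto_pow_atTop (α := ℝ) two_ne_zero))
      simpa [Function.comp_def] using this
    refine tendsto_of_tendsto_of_tendsto_of_le_of_le' tendsto_const_nhds h0
      (Eventually.of_forall fun _ => bot_le) ?_
    filter_upwards [eventually_gt_atTop 0] with r hr
    refine iSup₂_le ?_
    rintro _ ⟨_, ⟨n, rfl⟩, rfl⟩
    have h1 := mul_meas_ge_le_integral_of_nonneg (μ := (ν n : Measure ℝ))
      (Eventually.of_forall fun x => sq_nonneg x) (hsq n) (r ^ 2)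
    have h2 : (ν n : Measure ℝ) {x | r < ‖x‖} ≤ (ν n : Measure ℝ) {x | r ^ 2 ≤ x ^ 2} := by
      refine measure_mono fun x hx => ?_
      have hx' : r < |x| := hx
      change r ^ 2 ≤ x ^ 2
      rw [← sq_abs x]
      exact pow_le_pow_left₀ hr.le hx'.le 2
    refine h2.trans ?_
    rw [← ofReal_measureReal]
    refine ENNReal.ofReal_le_ofReal ?_
    rw [← one_div, le_div_iff₀ (by positivity)]
    linarith [hsq1 n]
  have hcomp := isCompact_closure_of_isTightMeasureSet htight
  refine hcomp.tendsto_nhds_of_unique_mapClusterPt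
    (Eventually.of_forall fun n => subset_closure ⟨n, rfl⟩) fun μ _ hμ => ?_
  obtain ⟨φ, hφ, hl⟩ := hμ.tendsto_subseq
  have key := limit_mgf (ν ∘ φ) μ hl (fun n => hint (φ n))
    (fun θ hθ => (h θ hθ).comp hφ.tendsto_atTop)
  exact Subtype.ext (eq_gaussian_of_mgf_pos μ (fun θ hθ => (key θ hθ).1) (fun θ hθ => (key θ hθ).2))

end Pool.Agent.MP_3d3bcd_pr.H93
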