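import Mathlib

set_option autoImplicit false

namespace Pool.Agent.MP_3d3bcd_pr.H93

/-- `μ` (a set of arcs `(i, j)`, `i < j`) is a non-crossing perfect matching of the set `q`. -/
def IsNCMatching (q : Finset ℕ) (μ : Finset (ℕ × ℕ)) : Prop :=
  (∀ e ∈ μ, e.1 ∈ q ∧ e.2 ∈ q ∧ e.1 < e.2) ∧
  (∀ x ∈ q, ∃! e, e ∈ μ ∧ (e.1 = x ∨ e.2 = x)) ∧
  (∀ e ∈ μ, ∀ f ∈ μ, ¬ (e.1 < f.1 ∧ f.1 < e.2 ∧ e.2 < f.2))

open Classical in
/-- The finite set of all non-crossing perfect matchings of `q`. -/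
noncomputable def ncMatchings (q : Finset ℕ) : Finset (Finset (ℕ × ℕ)) :=
  (q ×ˢ q).powerset.filter (IsNCMatching q)

/-- Meandric systems of size `n`: pairs of non-crossing perfect matchings of `{1, …, 2n}`. -/
noncomputable def systems (n : ℕ) : Finset (Finset (ℕ × ℕ) × Finset (ℕ × ℕ)) :=
  ncMatchings (Finset.Icc 1 (2 * n)) ×ˢ ncMatchings (Finset.Icc 1 (2 * n))

/-- The number of pairs belonging to both matchings. -/
def common (p : Finset (ℕ × ℕ) × Finset (ℕ × ℕ)) : ℕ := (p.1 ∩ p.2).card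

/-- The mean of `Y_n` under the uniform law. -/
noncomputable def mean (n : ℕ) : ℝ := (∑ p ∈ systems n, (common p : ℝ)) / (systems n).card

/-- The variance of `Y_n` under the uniform law. -/
noncomputable def var (n : ℕ) : ℝ :=
  (∑ p ∈ systems n, ((common p : ℝ) - mean n) ^ 2) / (systems n).card

end Pool.Agent.MP_3d3bcd_pr.H93
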