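import Pool.Agent.MP_3d3bcd_pr.H93.Rec

set_option autoImplicit false

open Finset PowerSeries

namespace Pool.Agent.MP_3d3bcd_pr.H93

/-- the Euler operator -/
noncomputable def EE (f : ℝ⟦X⟧) : ℝ⟦X⟧ := X * d⁄dX ℝ f

theorem coeff_EE (f : ℝ⟦X⟧) (n : ℕ) : coeff n (EE f) = n * coeff n f := by
  cases n with
  | zero => simp [EE]
  | succ n => rw [EE, coeff_succ_X_mul, coeff_derivative]; push_cast; ring

theorem EE_mul (f g : ℝ⟦X⟧) : EE (f * g) = EE f * g + f * EE g := by
  rw [EE, EE, EE, Derivation.leibniz]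
  simp only [smul_eq_mul]
  ring

theorem EE_add (f g : ℝ⟦X⟧) : EE (f + g) = EE f + EE g := by
  rw [EE, EE, EE, map_add]; ring

theorem EE_pow_succ (f : ℝ⟦X⟧) (n : ℕ) : EE (f ^ (n + 1)) = ((n : ℝ⟦X⟧) + 1) * f ^ n * EE f := by
  rw [EE, EE, derivative_pow]
  simp only [Nat.add_sub_cancel]
  push_cast
  ring

theorem EE_C_mul (a : ℝ) (f : ℝ⟦X⟧) : EE (C a * f) = C a * EE f := by
  ext n
  rw [coeff_EE, coeff_C_mul, coeff_C_mul, coeff_EE]; ring

theorem EE_X_pow (j : ℕ) : EE (X ^ j) = C (j : ℝ) * X ^ j := by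
  ext n
  rw [coeff_EE, coeff_C_mul, coeff_X_pow]
  split_ifs with h
  · rw [h]
  · simp

theorem EE_X_pow_mul (a : ℕ) (D : ℝ⟦X⟧) :
    EE (X ^ a * D) = mk (fun i => ((i + a : ℕ) : ℝ) * coeff i D) * X ^ a := by
  ext n
  rw [coeff_EE, coeff_X_pow_mul', coeff_mul_X_pow']
  split_ifs with h
  · rw [coeff_mk, Nat.sub_add_cancel h]
  · simp

theorem coeff_mul_range (A B : ℝ⟦X⟧) (N : ℕ) :
    coeff N (A * B) = ∑ i ∈ range (N + 1), coeff i A * coeff N (X ^ i * B) := by
  rw [coeff_mul, Nat.sum_antidiagonal_eq_sum_range_succ_mk]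
  refine sum_congr rfl fun i hi => ?_
  rw [coeff_X_pow_mul', if_pos (Nat.lt_succ_iff.1 (mem_range.1 hi))]

section lag

variable (u : ℝ) (G w A D : ℝ⟦X⟧)

theorem coeff_A_mul (hG : G = X * w)
    (hA : ∀ N, ∃ B, A = ∑ i ∈ range N, C (coeff i D) * G ^ (i + 1) + G ^ N * B) (N j : ℕ) :
    coeff N (A * G ^ j) = ∑ i ∈ range (N + 1), coeff i D * coeff N (G ^ (i + (j + 1))) := by
  obtain ⟨B, hB⟩ := hA (N + 1)
  have h0 : coeff N (G ^ (N + 1) * B * G ^ j) = 0 := by
    have : (X : ℝ⟦X⟧) ^ (N + 1) ∣ G ^ (N + 1) * B * G ^ j := by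
      refine ⟨w ^ (N + 1) * B * G ^ j, ?_⟩
      nth_rewrite 1 [hG]
      ring
    exact X_pow_dvd_iff.1 this N (Nat.lt_succ_self N)
  rw [hB, add_mul, map_add, h0, add_zero, sum_mul, map_sum]
  refine sum_congr rfl fun i _ => ?_
  rw [mul_assoc, coeff_C_mul, ← pow_add, show i + 1 + j = i + (j + 1) by ring]

theorem lagrange (hG : G = X * w)
    (hA : ∀ N, ∃ B, A = ∑ i ∈ range N, C (coeff i D) * G ^ (i + 1) + G ^ N * B)
    (hfix : G = X + C u * X * A * G) (N j : ℕ) :
    (N : ℝ) * coeff N (G ^ j) = j * coeff N (X ^ j * (1 + C u * (X ^ 2 * D)) ^ N) := by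
  set Φ : ℝ⟦X⟧ := 1 + C u * (X ^ 2 * D) with hΦ
  induction N generalizing j with
  | zero =>
    cases j with
    | zero => simp
    | succ j => simp [pow_succ]
  | succ N ih =>
    cases j with
    | zero => simp
    | succ j =>
      have hrec : coeff (N + 1) (G ^ (j + 1)) = coeff N (G ^ j) +
          u * ∑ i ∈ range (N + 1), coeff i D * coeff N (G ^ (i + (j + 1 + 1))) := by
        have : G ^ (j + 1) = X * (G ^ j + C u * (A * G ^ (j + 1))) := by
          calc G ^ (j + 1) = G ^ j * G := pow_succ _ _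
            _ = G ^ j * (X + C u * X * A * G) := by rw [← hfix]
            _ = _ := by ring
        rw [this, coeff_succ_X_mul, map_add, coeff_C_mul, coeff_A_mul G w A D hG hA]
      have hX : coeff (N + 1) (X ^ (j + 1) * Φ ^ (N + 1)) = coeff N (X ^ j * Φ ^ (N + 1)) := by
        rw [pow_succ' X j, mul_assoc, coeff_succ_X_mul]
      rw [hX]
      rcases Nat.eq_zero_or_pos N with rfl | hN
      · rw [hrec]
        cases j with
        | zero => simp [hΦ, hG]
        | succ j => simp [hΦ, hG, pow_succ]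
      · have hN' : (N : ℝ) ≠ 0 := by positivity
        have h1 : (N : ℝ) * coeff (N + 1) (G ^ (j + 1)) = coeff N (EE (X ^ j * Φ) * Φ ^ N) := by
          have e1 : X ^ j * Φ = X ^ j + C u * (X ^ (j + 1 + 1) * D) := by rw [hΦ]; ring
          rw [hrec, mul_add, ih, e1, EE_add, EE_C_mul, EE_X_pow, EE_X_pow_mul, add_mul, map_add,
            mul_assoc, coeff_C_mul, mul_assoc (C u), coeff_C_mul, mul_assoc (PowerSeries.mk _),
            coeff_mul_range (PowerSeries.mk _), mul_left_comm, mul_sum]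
          congr 2
          refine sum_congr rfl fun i _ => ?_
          rw [mul_left_comm, ih, coeff_mk, ← mul_assoc (X ^ i), ← pow_add]
          ring
        have h2 : ((N : ℝ⟦X⟧) + 1) * (EE (X ^ j * Φ) * Φ ^ N) =
            EE (X ^ j * Φ ^ (N + 1)) + C ((N : ℝ) * j) * (X ^ j * Φ ^ (N + 1)) := by
          rw [EE_mul, EE_mul, EE_pow_succ, EE_X_pow, map_mul, map_natCast, map_natCast]
          ring
        have h3 := congrArg (coeff N) h2
        rw [map_add, coeff_EE, coeff_C_mul,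
          show ((N : ℝ⟦X⟧) + 1) = C ((N : ℝ) + 1) by rw [map_add, map_natCast, map_one],
          coeff_C_mul, ← h1] at h3
        apply mul_left_cancel₀ hN'
        push_cast
        linear_combination h3

theorem lagrange_A (hG : G = X * w)
    (hA : ∀ N, ∃ B, A = ∑ i ∈ range N, C (coeff i D) * G ^ (i + 1) + G ^ N * B)
    (hfix : G = X + C u * X * A * G) (N : ℕ) :
    (N : ℝ) * coeff N A = coeff N (EE (X ^ 1 * D) * (1 + C u * (X ^ 2 * D)) ^ N) := by
  have h := coeff_A_mul G w A D hG hA N 0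
  rw [pow_zero, mul_one] at h
  rw [h, EE_X_pow_mul, mul_assoc, coeff_mul_range (PowerSeries.mk _), mul_sum]
  refine sum_congr rfl fun i _ => ?_
  rw [mul_left_comm, lagrange u G w A D hG hA hfix, coeff_mk, ← mul_assoc (X ^ i), ← pow_add]
  ring

end lag

/-- generating function of squared Catalan numbers -/
noncomputable def MM : ℝ⟦X⟧ := mk fun n => (catalan n : ℝ) ^ 2

/-- the same in the variable `X ^ 2` -/
noncomputable def DD : ℝ⟦X⟧ := mk fun i => (cN i : ℝ) ^ 2

theorem DD_eq : DD = expand 2 two_ne_zero MM := by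
  ext i
  rcases Nat.even_or_odd' i with ⟨k, rfl | rfl⟩
  · rw [coeff_expand_mul, DD, MM, coeff_mk, coeff_mk, cN_two_mul]
  · rw [coeff_expand_of_not_dvd _ _ _ (by omega), DD, coeff_mk, cN_odd]; simp

theorem coeff_DD_pow (j m : ℕ) : coeff (2 * m) (DD ^ j) = coeff m (MM ^ j) := by
  rw [DD_eq, ← map_pow, coeff_expand_mul]

theorem tt_lagrange (u : ℝ) (N : ℕ) :
    ((N + 1 : ℕ) : ℝ) * tt u N 0 =
      coeff (N + 1) (EE (X ^ 1 * DD) * (1 + C u * (X ^ 2 * DD)) ^ (N + 1)) := by
  set T : ℕ → ℝ⟦X⟧ := fun j => mk fun m => tt u m j with hT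
  have hrec : ∀ j, T j = C (coeff j DD) + X * T (j + 1) + C u * (X * (X * (T 0 * T j))) := by
    intro j
    ext m
    cases m with
    | zero => simp [hT, tt_zero, DD]
    | succ m =>
      rw [map_add, map_add, coeff_C_mul, coeff_succ_X_mul, coeff_succ_X_mul, coeff_C,
        if_neg (Nat.succ_ne_zero m), zero_add]
      simp only [hT, coeff_mk]
      rw [tt_succ]
      congr 2
      cases m with
      | zero => simp
      | succ m =>
        rw [coeff_succ_X_mul, coeff_mul, Nat.sum_antidiagonal_eq_sum_range_succ_mk]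
        simp
  set w : ℝ⟦X⟧ := (1 - C u * (X * (X * T 0)))⁻¹ with hw
  have hw1 : (1 - C u * (X * (X * T 0))) * w = 1 :=
    PowerSeries.mul_inv_cancel _ (by simp)
  set G : ℝ⟦X⟧ := X * w with hG
  have hstep : ∀ j, T j = w * C (coeff j DD) + G * T (j + 1) := by
    intro j
    have h := hrec j
    rw [hG]
    linear_combination w * h - T j * hw1
  have hiter : ∀ N, X * T 0 =
      ∑ i ∈ range N, C (coeff i DD) * G ^ (i + 1) + G ^ N * (X * T N) := by
    intro N
    induction N with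
    | zero => simp
    | succ N ih =>
      rw [ih, sum_range_succ, hstep N]
      nth_rewrite 3 [hG]
      rw [pow_succ G N]
      nth_rewrite 3 [hG]
      ring
  have hfix : G = X + C u * X * (X * T 0) * G := by
    rw [hG]
    linear_combination X * hw1
  have := lagrange_A u G w (X * T 0) DD hG (fun N => ⟨_, hiter N⟩) hfix (N + 1)
  rw [coeff_succ_X_mul] at this
  simp only [hT, coeff_mk] at this
  exact this

/-- the number of systems of size `n` with `k` marked common arcs -/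
noncomputable def aa (n k : ℕ) : ℝ :=
  if k ≤ n then ((2 * n).choose k : ℝ) / (k + 1) * coeff (n - k) (MM ^ (k + 1)) else 0

theorem tt_formula (u : ℝ) (n : ℕ) :
    tt u (2 * n) 0 = ∑ k ∈ range (2 * n + 2), aa n k * u ^ k := by
  have h := tt_lagrange u (2 * n)
  rw [add_comm (1 : ℝ⟦X⟧), add_pow, mul_sum, map_sum] at h
  have hN : ((2 * n + 1 : ℕ) : ℝ) ≠ 0 := by positivity
  apply mul_left_cancel₀ hN
  rw [h, mul_sum]
  refine sum_congr rfl fun k hk => ?_
  have hk' : k ≤ 2 * n + 1 := Nat.lt_succ_iff.1 (mem_range.1 hk)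
  have hk1 : ((k : ℝ) + 1) ≠ 0 := by positivity
  have e1 : ((k : ℝ⟦X⟧) + 1) * (EE (X ^ 1 * DD) * ((C u * (X ^ 2 * DD)) ^ k * 1 ^ (2 * n + 1 - k) *
      ((2 * n + 1).choose k : ℝ⟦X⟧))) =
      C (u ^ k * ((2 * n + 1).choose k : ℝ)) * (X ^ k * EE ((X ^ 1 * DD) ^ (k + 1))) := by
    rw [EE_pow_succ, map_mul, map_pow, map_natCast]
    ring
  have e2 := congrArg (coeff (2 * n + 1)) e1
  rw [show ((k : ℝ⟦X⟧) + 1) = C ((k : ℝ) + 1) by rw [map_add, map_natCast, map_one],
    coeff_C_mul, coeff_C_mul, coeff_X_pow_mul', if_pos hk', coeff_EE, mul_pow (X ^ 1), ← pow_mul,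
    coeff_X_pow_mul'] at e2
  apply mul_left_cancel₀ hk1
  rw [e2, aa]
  by_cases hkn : k ≤ n
  · rw [if_pos (by omega), if_pos hkn,
      show 2 * n + 1 - k - 1 * (k + 1) = 2 * (n - k) by omega, coeff_DD_pow]
    have := Nat.choose_mul_succ_eq (2 * n) k
    have e3 : (((2 * n).choose k : ℕ) : ℝ) * ((2 * n + 1 : ℕ) : ℝ) =
        ((2 * n + 1).choose k : ℝ) * ((2 * n + 1 - k : ℕ) : ℝ) := by exact_mod_cast this
    field_simp
    linear_combination (-(u ^ k * coeff (n - k) (MM ^ (k + 1)))) * e3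
  · rw [if_neg (by omega), if_neg hkn]
    simp

theorem sum_systems_formula (u : ℝ) (n : ℕ) :
    ∑ p ∈ systems n, (1 + u) ^ common p = ∑ k ∈ range (2 * n + 2), aa n k * u ^ k := by
  rw [sum_systems, tt_formula]

theorem sum_choose (n k : ℕ) (hk : k ≤ n) :
    ∑ p ∈ systems n, ((common p).choose k : ℝ) = aa n k := by
  have : (∑ p ∈ systems n, (1 + Polynomial.X) ^ common p : Polynomial ℝ) =
      ∑ k ∈ range (2 * n + 2), Polynomial.C (aa n k) * Polynomial.X ^ k := by
    apply Polynomial.funext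
    intro u
    simp only [Polynomial.eval_finsetSum, Polynomial.eval_pow, Polynomial.eval_add,
      Polynomial.eval_one, Polynomial.eval_X, Polynomial.eval_mul, Polynomial.eval_C]
    exact sum_systems_formula u n
  have h := congrArg (fun P => Polynomial.coeff P k) this
  simp only [Polynomial.finsetSum_coeff, Polynomial.coeff_one_add_X_pow,
    Polynomial.coeff_C_mul_X_pow] at h
  rw [h, sum_ite_eq, if_pos (mem_range.2 (by omega))]

end Pool.Agent.MP_3d3bcd_pr.H93
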