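import Pool.Agent.MP_3d3bcd_pr.H93.Moments
import Pool.Agent.MP_3d3bcd_pr.H93.Curtiss

set_option autoImplicit false

open Finset Filter Topology MeasureTheory ProbabilityTheory

namespace Pool.Agent.MP_3d3bcd_pr.H93

/-- the normalised variable -/
noncomputable def WW (n : ℕ) (p : Finset (ℕ × ℕ) × Finset (ℕ × ℕ)) : ℝ :=
  ((common p : ℝ) - mean n) / √(var n)

/-- its law -/
noncomputable def law (n : ℕ) : Measure ℝ :=
  ((systems n).card : ENNReal)⁻¹ • ∑ p ∈ systems n, Measure.dirac (WW n p)

theorem card_ne_zero' (n : ℕ) : ((systems n).card : ENNReal) ≠ 0 := by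
  have := card_pos' n
  have h : 0 < (systems n).card := by exact_mod_cast this
  exact_mod_cast h.ne'

theorem law_prob (n : ℕ) : IsProbabilityMeasure (law n) := by
  constructor
  rw [law, Measure.smul_apply, Measure.finsetSum_apply]
  simp only [measure_univ, sum_const, nsmul_eq_mul, mul_one, smul_eq_mul]
  exact ENNReal.inv_mul_cancel (card_ne_zero' n) (ENNReal.natCast_ne_top _)

theorem integrable_law (n : ℕ) (f : ℝ → ℝ) : Integrable f (law n) := by
  refine Integrable.smul_measure ?_ (ENNReal.inv_ne_top.2 (card_ne_zero' n))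
  exact integrable_finsetSum_measure.2 fun p _ => integrable_dirac (by simp)

theorem integral_law (n : ℕ) (f : ℝ → ℝ) :
    ∫ x, f x ∂(law n) = (∑ p ∈ systems n, f (WW n p)) / (systems n).card := by
  rw [law, integral_smul_measure,
    integral_finsetSum_measure fun p _ => integrable_dirac (by simp)]
  simp only [integral_dirac, ENNReal.toReal_inv, ENNReal.toReal_natCast, smul_eq_mul]
  ring

theorem var_nonneg (n : ℕ) : 0 ≤ var n :=
  div_nonneg (sum_nonneg fun _ _ => sq_nonneg _) (Nat.cast_nonneg _)

theorem law_tendsto : Tendsto (β := ProbabilityMeasure ℝ) (fun n => ⟨law n, law_prob n⟩) atTop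
    (𝓝 ⟨gaussianReal 0 1, inferInstance⟩) := by
  refine tendsto_gaussian_of_mgf_pos _ (fun n => integrable_law n _) (fun n => ?_)
    (fun n θ _ => integrable_law n _) (fun θ hθ => ?_)
  · change ∫ x, x ^ 2 ∂(law n) ≤ 1
    rw [integral_law]
    simp only [WW, div_pow, Real.sq_sqrt (var_nonneg n)]
    rw [← sum_div, div_right_comm, ← var]
    exact div_self_le_one _
  · refine (mgf_tendsto θ hθ).congr fun n => ?_
    exact (integral_law n fun x => Real.exp (θ * x)).symm

theorem main (x : ℝ) :
    Tendsto (fun n : ℕ => (((systems n).filter fun p =>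
        ((common p : ℝ) - mean n) / √(var n) ≤ x).card : ℝ) / (systems n).card) atTop
      (𝓝 (cdf (gaussianReal 0 1) x)) := by
  have h := ProbabilityMeasure.tendsto_measure_of_null_frontier_of_tendsto' law_tendsto
    (E := Set.Iic x) (by
      rw [frontier_Iic]
      have : NullSingletonClass (gaussianReal 0 1) := nullSingletonClass_gaussianReal one_ne_zero
      exact measure_singleton (μ := gaussianReal 0 1) x)
  have h2 := (ENNReal.tendsto_toReal (measure_ne_top _ _)).comp h
  rw [cdf_eq_real]
  refine h2.congr fun n => ?_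
  change (law n).real (Set.Iic x) = _
  rw [← integral_indicator_one measurableSet_Iic, integral_law, card_filter]
  congr 1
  push_cast
  refine sum_congr rfl fun p _ => ?_
  simp only [Set.indicator, Set.mem_Iic, WW, Pi.one_apply]

end Pool.Agent.MP_3d3bcd_pr.H93
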