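import Pool.Agent.MP_3d3bcd_pr.H93.Second

set_option autoImplicit false

open Finset Filter Topology

namespace Pool.Agent.MP_3d3bcd_pr.H93

theorem card_cast (n : ℕ) : ((systems n).card : ℝ) = (catalan n : ℝ) ^ 2 := by
  rw [card_systems]; push_cast; rfl

theorem card_pos' (n : ℕ) : (0 : ℝ) < (systems n).card := by
  rw [card_cast]
  have : (0 : ℝ) < catalan n := by exact_mod_cast catalan_pos n
  positivity

/-- probability generating function at `1 + u` -/
noncomputable def gf (n : ℕ) (u : ℝ) : ℝ :=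
  (∑ p ∈ systems n, (1 + u) ^ common p) / (systems n).card

theorem gf_eq (n : ℕ) (u : ℝ) :
    gf n u = ∑ k ∈ range (2 * n + 1), ((2 * n).choose k : ℝ) * (cc * u) ^ k * rho n k := by
  have h := card_pos' n
  rw [gf, sum_systems_formula, div_eq_iff h.ne', sum_range_succ, aa_eq,
    Nat.choose_eq_zero_of_lt (Nat.lt_succ_self _), sum_mul, card_cast]
  simp only [Nat.cast_zero, zero_mul, mul_zero, add_zero]
  refine sum_congr rfl fun k _ => ?_
  rw [aa_eq]
  ring

theorem binom_eq (N : ℕ) (v : ℝ) :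
    (1 + v) ^ N = ∑ k ∈ range (N + 1), (N.choose k : ℝ) * v ^ k := by
  rw [add_comm, add_pow]
  exact sum_congr rfl fun k _ => by ring

theorem gf_ratio (u : ℕ → ℝ) (T : ℝ) (hT : 0 ≤ T)
    (hu : ∀ᶠ n : ℕ in atTop, 0 ≤ u n ∧ u n * √n ≤ T) :
    Tendsto (fun n => gf n (u n) / (1 + cc * u n) ^ (2 * n)) atTop (𝓝 1) := by
  have hsq : Tendsto (fun n : ℕ => √(n : ℝ)) atTop atTop :=
    Real.tendsto_sqrt_atTop.comp tendsto_natCast_atTop_atTop
  have htail : Tendsto (fun n : ℕ => 33 * (√(n : ℝ) ^ 6 * Real.exp (-√(n : ℝ)))) atTop (𝓝 0) := by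
    have := ((Real.tendsto_pow_mul_exp_neg_atTop_nhds_zero 6).comp hsq).const_mul 33
    simpa using this
  rw [Metric.tendsto_nhds]
  intro ε hε
  filter_upwards [hu, rho_close (T + 1) (by positivity) (ε / 3) (by positivity),
    htail.eventually (gt_mem_nhds (show 0 < ε / 3 by positivity)), eventually_ge_atTop 1]
    with n hun hρ ht hn
  obtain ⟨hu0, huT⟩ := hun
  have hn' : (1 : ℝ) ≤ n := by exact_mod_cast hn
  set t := √(n : ℝ) with htdef
  have ht1 : 1 ≤ t := Real.one_le_sqrt.2 hn'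
  have e2 : t * t = n := Real.mul_self_sqrt (Nat.cast_nonneg n)
  set v := cc * u n with hv
  have hv0 : 0 ≤ v := mul_nonneg cc_pos.le hu0
  have hD : 1 ≤ (1 + v) ^ (2 * n) := one_le_pow₀ (by linarith)
  have hterm : ∀ k ∈ range (2 * n + 1),
      |((2 * n).choose k : ℝ) * v ^ k * rho n k - ((2 * n).choose k : ℝ) * v ^ k| ≤
        ε / 3 * (((2 * n).choose k : ℝ) * v ^ k) +
        33 * (n : ℝ) ^ 3 * Real.exp (-((T + 1) * t)) *
          (((2 * n).choose k : ℝ) * (Real.exp 1 * v) ^ k) := by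
    intro k _
    have hw : 0 ≤ ((2 * n).choose k : ℝ) * v ^ k := by positivity
    rw [← mul_sub_one, abs_mul, abs_of_nonneg hw]
    by_cases hk : (k : ℝ) ≤ (T + 1) * t
    · refine le_add_of_le_of_nonneg ?_ (by positivity)
      rw [mul_comm]
      exact mul_le_mul_of_nonneg_right (hρ k hk) hw
    · refine le_add_of_nonneg_of_le (by positivity) ?_
      have h1 : |rho n k - 1| ≤ 33 * (n : ℝ) ^ 3 := by
        have := rho_crude n k hn
        have := rho_nonneg n k
        have : 1 ≤ (n : ℝ) ^ 3 := one_le_pow₀ hn'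
        rw [abs_le]; constructor <;> linarith
      have h2 : 1 ≤ Real.exp (-((T + 1) * t)) * Real.exp 1 ^ k := by
        rw [← Real.exp_nat_mul, ← Real.exp_add]
        exact Real.one_le_exp (by linarith [not_le.1 hk])
      calc ((2 * n).choose k : ℝ) * v ^ k * |rho n k - 1|
          ≤ ((2 * n).choose k : ℝ) * v ^ k * (33 * (n : ℝ) ^ 3) * 1 := by
            rw [mul_one]; gcongr
        _ ≤ ((2 * n).choose k : ℝ) * v ^ k * (33 * (n : ℝ) ^ 3) *
            (Real.exp (-((T + 1) * t)) * Real.exp 1 ^ k) := by gcongr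
        _ = _ := by rw [mul_pow]; ring
  have hE : (1 + Real.exp 1 * v) ^ (2 * n) ≤ Real.exp (T * t) := by
    have h1 : 1 + Real.exp 1 * v ≤ Real.exp (Real.exp 1 * v) := by
      linarith [Real.add_one_le_exp (Real.exp 1 * v)]
    refine (pow_le_pow_left₀ (by positivity) h1 _).trans ?_
    rw [← Real.exp_nat_mul]
    refine Real.exp_le_exp.2 ?_
    have h3 : Real.exp 1 ≤ 3 := Real.exp_one_lt_three.le
    have h4 : Real.exp 1 * v ≤ 3 * (1 / 8 * u n) := by
      have := cc_le
      have := cc_pos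
      rw [hv]; gcongr
    push_cast
    rw [← e2]
    calc 2 * (t * t) * (Real.exp 1 * v) ≤ 2 * (t * t) * (3 * (1 / 8 * u n)) := by gcongr
      _ = 3 / 4 * (u n * t) * t := by ring
      _ ≤ 1 * T * t := by gcongr; norm_num
      _ = T * t := by ring
  have hmain : |gf n (u n) - (1 + v) ^ (2 * n)| ≤
      ε / 3 * (1 + v) ^ (2 * n) + 33 * (t ^ 6 * Real.exp (-t)) := by
    calc |gf n (u n) - (1 + v) ^ (2 * n)|
        = |∑ k ∈ range (2 * n + 1), (((2 * n).choose k : ℝ) * v ^ k * rho n k -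
            ((2 * n).choose k : ℝ) * v ^ k)| := by
          rw [gf_eq, binom_eq, sum_sub_distrib]
      _ ≤ _ := (abs_sum_le_sum_abs _ _).trans (sum_le_sum hterm)
      _ = ε / 3 * (1 + v) ^ (2 * n) + 33 * (n : ℝ) ^ 3 * Real.exp (-((T + 1) * t)) *
          (1 + Real.exp 1 * v) ^ (2 * n) := by
          rw [sum_add_distrib, ← mul_sum, ← mul_sum, ← binom_eq, ← binom_eq]
      _ ≤ ε / 3 * (1 + v) ^ (2 * n) + 33 * (n : ℝ) ^ 3 * Real.exp (-((T + 1) * t)) *
          Real.exp (T * t) := by gcongr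
      _ = _ := by
          rw [mul_assoc (33 * (n : ℝ) ^ 3), ← Real.exp_add, ← e2]
          congr 1
          rw [show -((T + 1) * t) + T * t = -t by ring]
          ring
  rw [Real.dist_eq, div_sub_one (by linarith), abs_div, abs_of_pos (by linarith : 0 < (1 + v) ^ (2 * n)),
    div_lt_iff₀ (by linarith)]
  nlinarith

theorem mean_eq (n : ℕ) (hn : 1 ≤ n) : mean n = 2 * n * cc * rho n 1 := by
  have h := sum_choose n 1 hn
  simp only [Nat.choose_one_right] at h
  rw [mean, h, aa_eq, div_eq_iff (card_pos' n).ne', card_cast]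
  simp only [Nat.choose_one_right]
  push_cast
  ring

theorem var_eq (n : ℕ) (hn : 2 ≤ n) :
    var n = 2 * n * (2 * n - 1) * cc ^ 2 * rho n 2 + mean n - mean n ^ 2 := by
  have h := sum_choose n 2 hn
  have hc := card_pos' n
  have h1 : ∑ p ∈ systems n, (common p : ℝ) = mean n * (systems n).card := by
    rw [mean]; field_simp
  have h2 : ∑ p ∈ systems n, ((common p : ℝ) - mean n) ^ 2 =
      2 * ∑ p ∈ systems n, ((common p).choose 2 : ℝ) + (1 - 2 * mean n) *
        ∑ p ∈ systems n, (common p : ℝ) + (systems n).card * mean n ^ 2 := by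
    rw [mul_sum, mul_sum, ← nsmul_eq_mul, ← sum_const, ← sum_add_distrib, ← sum_add_distrib]
    refine sum_congr rfl fun p _ => ?_
    rw [Nat.cast_choose_two]
    ring
  rw [var, h2, h, h1, aa_eq, div_eq_iff hc.ne', Nat.cast_choose_two, card_cast]
  push_cast
  ring

/-- limiting variance per unit size -/
noncomputable def sig2 : ℝ := 2 * cc * (1 - cc)

theorem sig2_pos : 0 < sig2 := by
  have := cc_pos
  have := cc_le
  exact mul_pos (by positivity) (by linarith)

theorem var_tendsto : Tendsto (fun n : ℕ => var n / n) atTop (𝓝 sig2) := by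
  have l1 := lim1_rho 0
  have l2 := lim1_rho 1
  have t1 := l1.tendsto_one
  have t2 := l2.tendsto_one
  have := ((((Tendsto.sub l2 (Tendsto.mul l1 (t1.add_const 1))).const_mul (4 * cc ^ 2)).sub
    (t2.const_mul (2 * cc ^ 2))).add (t1.const_mul (2 * cc)))
  have e : 4 * cc ^ 2 * ((((1 : ℕ) : ℝ) + 1) * (3 * mu + 3) - (((0 : ℕ) : ℝ) + 1) * (3 * mu + 3) *
      (1 + 1)) - 2 * cc ^ 2 * 1 + 2 * cc * 1 = sig2 := by
    rw [sig2]; push_cast; ring
  rw [e] at this
  refine this.congr' ?_
  filter_upwards [eventually_ge_atTop 2] with n hn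
  have : (n : ℝ) ≠ 0 := by
    have : 0 < n := by omega
    positivity
  rw [var_eq n hn, mean_eq n (by omega)]
  field_simp
  ring

theorem mean_tendsto :
    Tendsto (fun n : ℕ => mean n - 2 * n * cc) atTop (𝓝 (2 * cc * (3 * mu + 3))) := by
  have := Tendsto.const_mul (2 * cc) (lim1_rho 0)
  simp only [Nat.cast_zero, zero_add, one_mul] at this
  refine this.congr' ?_
  filter_upwards [eventually_ge_atTop 1] with n hn
  rw [mean_eq n hn]
  ring

theorem var_atTop : Tendsto var atTop atTop := by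
  have := Tendsto.pos_mul_atTop sig2_pos var_tendsto (tendsto_natCast_atTop_atTop (R := ℝ))
  refine this.congr' ?_
  filter_upwards [eventually_gt_atTop 0] with n hn
  have : (n : ℝ) ≠ 0 := by positivity
  field_simp

theorem exp_second : Tendsto (fun t : ℝ => (Real.exp t - 1 - t) / t ^ 2) (𝓝[≠] 0) (𝓝 (1 / 2)) := by
  rw [tendsto_iff_dist_tendsto_zero]
  have h0 : Tendsto (fun t : ℝ => |t|) (𝓝[≠] 0) (𝓝 0) := by
    have := (continuous_abs.tendsto (0 : ℝ)).mono_left (nhdsWithin_le_nhds (s := {0}ᶜ))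
    simpa using this
  refine squeeze_zero' (Eventually.of_forall fun _ => dist_nonneg) ?_ h0
  filter_upwards [h0.eventually (ge_mem_nhds one_pos), self_mem_nhdsWithin] with t ht ht0
  have ht0' : t ≠ 0 := ht0
  have hb := Real.exp_bound ht (n := 3) (by norm_num)
  simp only [sum_range_succ, range_zero, sum_empty, Nat.factorial] at hb
  norm_num at hb
  have e : (Real.exp t - 1 - t) / t ^ 2 - 1 / 2 = (Real.exp t - (1 + t + t ^ 2 / 2)) / t ^ 2 := by
    field_simp; ring
  have hp : 0 < t ^ 2 := by positivity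
  rw [Real.dist_eq, e, abs_div, abs_of_pos hp, div_le_iff₀ hp]
  refine hb.trans ?_
  rw [← sq_abs t]
  have := abs_nonneg t
  nlinarith [pow_nonneg this 3]

theorem log_second :
    Tendsto (fun y : ℝ => (Real.log (1 + y) - y) / y ^ 2) (𝓝[≠] 0) (𝓝 (-(1 / 2))) := by
  rw [tendsto_iff_dist_tendsto_zero]
  have h0 : Tendsto (fun t : ℝ => |t|) (𝓝[≠] 0) (𝓝 0) := by
    have := (continuous_abs.tendsto (0 : ℝ)).mono_left (nhdsWithin_le_nhds (s := {0}ᶜ))
    simpa using this
  have h1 : Tendsto (fun t : ℝ => 2 * |t|) (𝓝[≠] 0) (𝓝 0) := by simpa using h0.const_mul 2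
  refine squeeze_zero' (Eventually.of_forall fun _ => dist_nonneg) ?_ h1
  filter_upwards [h0.eventually (ge_mem_nhds (show (0 : ℝ) < 1 / 2 by norm_num)),
    self_mem_nhdsWithin] with y hy hy0
  have hy0' : y ≠ 0 := hy0
  have hb := Real.abs_log_sub_add_sum_range_le (x := -y) (by rw [abs_neg]; linarith) 2
  simp only [sum_range_succ, range_zero, sum_empty, abs_neg, sub_neg_eq_add] at hb
  norm_num at hb
  have e : (Real.log (1 + y) - y) / y ^ 2 - -(1 / 2) =
      (-y + y ^ 2 / 2 + Real.log (1 + y)) / y ^ 2 := by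
    field_simp; ring
  have hp : 0 < y ^ 2 := by positivity
  rw [Real.dist_eq, e, abs_div, abs_of_pos hp, div_le_iff₀ hp]
  refine hb.trans ?_
  rw [div_le_iff₀ (by linarith), ← sq_abs y]
  have := abs_nonneg y
  nlinarith [pow_nonneg this 3]

theorem mgf_tendsto (θ : ℝ) (hθ : 0 < θ) :
    Tendsto (fun n : ℕ => (∑ p ∈ systems n,
      Real.exp (θ * (((common p : ℝ) - mean n) / √(var n)))) / (systems n).card) atTop
      (𝓝 (Real.exp (θ ^ 2 / 2))) := by
  set t : ℕ → ℝ := fun n => θ / √(var n) with ht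
  have hvpos : ∀ᶠ n in atTop, 0 < var n := var_atTop.eventually_gt_atTop 0
  have htpos : ∀ᶠ n in atTop, 0 < t n := by
    filter_upwards [hvpos] with n hn
    exact div_pos hθ (Real.sqrt_pos.2 hn)
  have ht0 : Tendsto t atTop (𝓝 0) :=
    tendsto_const_nhds.div_atTop (Real.tendsto_sqrt_atTop.comp var_atTop)
  have ht0' : Tendsto t atTop (𝓝[≠] 0) :=
    tendsto_nhdsWithin_iff.2 ⟨ht0, htpos.mono fun n hn => hn.ne'⟩
  have hnt : Tendsto (fun n : ℕ => (n : ℝ) * t n ^ 2) atTop (𝓝 (θ ^ 2 / sig2)) := by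
    have := (tendsto_const_nhds (x := θ ^ 2)).div var_tendsto sig2_pos.ne'
    refine this.congr' ?_
    filter_upwards [hvpos, eventually_gt_atTop 0] with n hn hn0
    have : (n : ℝ) ≠ 0 := by positivity
    simp only [ht, Pi.div_apply]
    rw [div_pow, Real.sq_sqrt hn.le]
    field_simp
  set u : ℕ → ℝ := fun n => Real.exp (t n) - 1 with hu
  have hupos : ∀ᶠ n in atTop, 0 < u n := by
    filter_upwards [htpos] with n hn
    have := Real.add_one_lt_exp hn.ne'
    simp only [hu]; linarith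
  have ha := exp_second.comp ht0'
  have hut : Tendsto (fun n => u n / t n) atTop (𝓝 1) := by
    have := (ha.mul ht0).add_const 1
    rw [mul_zero, zero_add] at this
    refine this.congr' ?_
    filter_upwards [htpos] with n hn
    simp only [hu, Function.comp]
    field_simp
    ring
  have hu0 : Tendsto (fun n => cc * u n) atTop (𝓝[≠] 0) := by
    refine tendsto_nhdsWithin_iff.2 ⟨?_, hupos.mono fun n hn => (mul_pos cc_pos hn).ne'⟩
    have := ((Real.continuous_exp.tendsto 0).comp ht0).sub_const 1 |>.const_mul cc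
    simpa using this
  have hb := log_second.comp hu0
  have hratio := gf_ratio u (2 * (θ ^ 2 / sig2 + 1)) (by have := sig2_pos; positivity) (by
    filter_upwards [hupos, htpos, hut.eventually (ge_mem_nhds (show (1 : ℝ) < 2 by norm_num)),
      hnt.eventually (ge_mem_nhds (lt_add_one _))] with n h1 h2 h3 h4
    refine ⟨h1.le, ?_⟩
    rw [div_le_iff₀ h2] at h3
    have e2 : √(n : ℝ) ^ 2 = n := Real.sq_sqrt (Nat.cast_nonneg n)
    have h5 : t n * √n ≤ θ ^ 2 / sig2 + 1 := by
      have h6 : 0 ≤ θ ^ 2 / sig2 := by have := sig2_pos; positivity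
      apply le_of_sq_le_sq _ (by linarith)
      rw [mul_pow, e2]
      nlinarith
    have := Real.sqrt_nonneg (n : ℝ)
    nlinarith)
  have hexp : Tendsto (fun n : ℕ => ((2 * n : ℕ) : ℝ) * Real.log (1 + cc * u n) - t n * mean n)
      atTop (𝓝 (θ ^ 2 / 2)) := by
    have := ((hnt.const_mul 2).mul (((hb.mul (hut.pow 2)).const_mul (cc ^ 2)).add
      (ha.const_mul cc))).sub (ht0.mul mean_tendsto)
    have e : 2 * (θ ^ 2 / sig2) * (cc ^ 2 * (-(1 / 2) * 1 ^ 2) + cc * (1 / 2)) -
        0 * (2 * cc * (3 * mu + 3)) = θ ^ 2 / 2 := by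
      have h1 := sig2_pos
      have h2 : cc ^ 2 * (-(1 / 2) * 1 ^ 2) + cc * (1 / 2) = sig2 / 4 := by rw [sig2]; ring
      rw [h2]; field_simp; ring
    rw [e] at this
    refine this.congr' ?_
    filter_upwards [htpos, hupos] with n h1 h2
    have := cc_pos
    simp only [Function.comp]
    have e3 : Real.exp (t n) - 1 = u n := rfl
    rw [e3]
    push_cast
    field_simp
    ring
  have := hratio.mul ((Real.continuous_exp.tendsto _).comp hexp)
  rw [one_mul] at this
  refine this.congr' ?_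
  filter_upwards [hupos] with n hn
  have h1 : 0 < 1 + cc * u n := by have := mul_pos cc_pos hn; linarith
  simp only [Function.comp]
  rw [Real.exp_sub, Real.exp_nat_mul, Real.exp_log h1, gf]
  have h2 : ∀ p, Real.exp (θ * (((common p : ℝ) - mean n) / √(var n))) =
      (1 + u n) ^ common p / Real.exp (t n * mean n) := by
    intro p
    rw [show 1 + u n = Real.exp (t n) by simp [hu], ← Real.exp_nat_mul, ← Real.exp_sub]
    congr 1
    simp only [ht]
    ring
  simp only [h2]
  rw [← sum_div]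
  have h3 := card_pos' n
  have h4 : (1 + cc * u n) ^ (2 * n) ≠ 0 := (pow_pos h1 _).ne'
  generalize (1 + cc * u n) ^ (2 * n) = D at h4 ⊢
  field_simp

end Pool.Agent.MP_3d3bcd_pr.H93
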