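import Pool.Agent.MP_3d3bcd_pr.H93.Split

set_option autoImplicit false

open Finset

namespace Pool.Agent.MP_3d3bcd_pr.H93

/-- number of non-crossing perfect matchings of a `j`-element set -/
def cN (j : ℕ) : ℕ := if j % 2 = 0 then catalan (j / 2) else 0

theorem cN_two_mul (n : ℕ) : cN (2 * n) = catalan n := by
  simp [cN]

theorem cN_odd (n : ℕ) : cN (2 * n + 1) = 0 := by
  simp [cN]

theorem sum_even {M : Type*} [AddCommMonoid M] (f : ℕ → M) (h : ∀ k, f (2 * k + 1) = 0) (n : ℕ) :
    ∑ i ∈ range (2 * n + 1), f i = ∑ k ∈ range (n + 1), f (2 * k) := by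
  induction n with
  | zero => simp
  | succ n ih =>
    rw [show 2 * (n + 1) + 1 = 2 * n + 1 + 1 + 1 by ring, sum_range_succ, sum_range_succ, ih, h,
      add_zero, sum_range_succ _ (n + 1)]
    rfl

theorem cN_succ (m : ℕ) : cN (m + 1) = ∑ i ∈ range m, cN i * cN (m - 1 - i) := by
  rcases Nat.even_or_odd' m with ⟨n, rfl | rfl⟩
  · rw [cN_odd]
    symm
    refine sum_eq_zero fun i hi => ?_
    have := mem_range.1 hi
    rcases Nat.even_or_odd' i with ⟨k, rfl | rfl⟩
    · rw [show 2 * n - 1 - 2 * k = 2 * (n - k - 1) + 1 by omega, cN_odd, mul_zero]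
    · rw [cN_odd, zero_mul]
  · rw [show 2 * n + 1 + 1 = 2 * (n + 1) by ring, cN_two_mul,
      sum_even _ (fun k => by rw [cN_odd, zero_mul]), catalan_succ,
      Fin.sum_univ_eq_sum_range (fun i => catalan i * catalan (n - i))]
    refine sum_congr rfl fun k hk => ?_
    have := mem_range.1 hk
    rw [show 2 * n + 1 - 1 - 2 * k = 2 * (n - k) by omega, cN_two_mul, cN_two_mul]

theorem sum_ite_arc {q : Finset ℕ} {μ : Finset (ℕ × ℕ)} (h : IsNCMatching q μ) (a : ℕ)
    (s : Finset (ℕ × ℕ)) (hs : s ⊆ μ) :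
    ∑ b ∈ q.filter (a < ·), (if (a, b) ∈ s then 1 else 0 : ℕ) = #(s.filter fun e => e.1 = a) := by
  rw [← card_filter]
  symm
  refine card_nbij' (fun e => e.2) (fun b => (a, b)) ?_ ?_ ?_ ?_
  · intro e he
    obtain ⟨he, h1⟩ := mem_filter.1 (mem_coe.1 he)
    have := h.1 e (hs he)
    refine mem_coe.2 (mem_filter.2 ⟨mem_filter.2 ⟨this.2.1, h1 ▸ this.2.2⟩, ?_⟩)
    rw [← h1]; exact he
  · intro b hb
    exact mem_coe.2 (mem_filter.2 ⟨(mem_filter.1 (mem_coe.1 hb)).2, rfl⟩)
  · intro e he
    obtain ⟨-, h1⟩ := mem_filter.1 (mem_coe.1 he)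
    simp only [← h1]
  · intro b _
    rfl

theorem card_filter_fst_le {q : Finset ℕ} {μ : Finset (ℕ × ℕ)} (h : IsNCMatching q μ) (a : ℕ)
    (s : Finset (ℕ × ℕ)) (hs : s ⊆ μ) : #(s.filter fun e => e.1 = a) ≤ 1 := by
  refine card_le_one.2 fun e he f hf => ?_
  obtain ⟨he, h1⟩ := mem_filter.1 he
  obtain ⟨hf, h2⟩ := mem_filter.1 hf
  exact h.eq_of (hs he) (hs hf) (Or.inl (h1.trans h2.symm))

theorem card_nc (q : Finset ℕ) : #(ncMatchings q) = cN #q := by
  induction hm : #q using Nat.strong_induction_on generalizing q with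
  | _ m ih =>
  rcases q.eq_empty_or_nonempty with rfl | hq
  · simp only [card_empty] at hm
    subst hm
    have : ncMatchings ∅ = {∅} := by
      ext μ
      rw [mem_nc, mem_singleton]
      constructor
      · intro h
        exact eq_empty_of_forall_notMem fun e he => by simpa using (h.1 e he).1
      · rintro rfl
        refine ⟨by simp, by simp, by simp⟩
    rw [this]; simp [cN]
  · set a := q.min' hq with ha
    have haq : a ∈ q := min'_mem q hq
    have hmin : ∀ x ∈ q, a ≤ x := fun x hx => min'_le q x hx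
    set r := q.filter (a < ·) with hr
    have hqr : q = insert a r := by
      ext x
      simp only [hr, mem_insert, mem_filter]
      constructor
      · intro hx
        have := hmin x hx
        rcases eq_or_lt_of_le this with h | h
        · exact Or.inl h.symm
        · exact Or.inr ⟨hx, h⟩
      · rintro (rfl | h)
        · exact haq
        · exact h.1
    have har : a ∉ r := fun h => lt_irrefl _ (mem_filter.1 h).2
    have hcard : m = #r + 1 := by rw [← hm, hqr, card_insert_of_notMem har]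
    have h1 : #(ncMatchings q) =
        ∑ μ ∈ ncMatchings q, ∑ b ∈ r, (if (a, b) ∈ μ then 1 else 0 : ℕ) := by
      rw [card_eq_sum_ones]
      refine sum_congr rfl fun μ hμ => ?_
      have hμ := mem_nc.1 hμ
      rw [sum_ite_arc hμ a μ subset_rfl]
      refine le_antisymm ?_ (card_filter_fst_le hμ a μ subset_rfl)
      obtain ⟨e, ⟨he, hex⟩, -⟩ := hμ.2.1 a haq
      refine card_pos.2 ⟨e, mem_filter.2 ⟨he, ?_⟩⟩
      have h2 := hμ.1 e he
      have := hmin _ h2.1
      omega
    rw [h1, sum_comm, hcard, cN_succ, ← sum_rank r (fun i l => cN i * cN l)]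
    refine sum_congr rfl fun b hb => ?_
    obtain ⟨hbq, hab⟩ := mem_filter.1 hb
    rw [← sum_filter, sum_split haq hbq hab]
    have e1 : qin q a b = r.filter (· < b) := by
      ext x; simp only [qin, hr, mem_filter]; tauto
    have e2 : qout q a b = r.filter (b < ·) := by
      ext x
      simp only [qout, hr, mem_filter]
      constructor
      · rintro ⟨h1, h2⟩
        have := hmin x h1
        exact ⟨⟨h1, by omega⟩, by omega⟩
      · rintro ⟨h1, h2⟩
        exact ⟨h1.1, Or.inr h2⟩
    have l1 : #(r.filter (· < b)) < m := by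
      have := card_filter_le r (· < b); omega
    have l2 : #(r.filter (b < ·)) < m := by
      have := card_filter_le r (b < ·); omega
    rw [e1, e2, ← ih _ l1 _ rfl, ← ih _ l2 _ rfl]
    simp

/-- the recursively defined table -/
noncomputable def tt (u : ℝ) : ℕ → ℕ → ℝ
  | 0, j => (cN j : ℝ) ^ 2
  | m + 1, j => tt u m (j + 1) + u * ∑ i : Fin m, tt u i 0 * tt u (m - 1 - i) j

theorem tt_zero (u : ℝ) (j : ℕ) : tt u 0 j = (cN j : ℝ) ^ 2 := by rw [tt]

theorem tt_succ (u : ℝ) (m j : ℕ) :
    tt u (m + 1) j = tt u m (j + 1) + u * ∑ i ∈ range m, tt u i 0 * tt u (m - 1 - i) j := by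
  rw [tt, Fin.sum_univ_eq_sum_range (fun i => tt u i 0 * tt u (m - 1 - i) j)]

/-- weighted count with a threshold -/
noncomputable def TT (u : ℝ) (q : Finset ℕ) (θ : ℕ) : ℝ :=
  ∑ μ ∈ ncMatchings q, ∑ ν ∈ ncMatchings q, (1 + u) ^ #((μ ∩ ν).filter fun e => θ ≤ e.1)

theorem TT_split (u : ℝ) {q : Finset ℕ} {a b : ℕ} (ha : a ∈ q) (hb : b ∈ q) (hab : a < b) :
    ∑ μ ∈ ncMatchings q, ∑ ν ∈ ncMatchings q,
      (if (a, b) ∈ μ ∩ ν then (1 + u) ^ #((μ ∩ ν).filter fun e => a + 1 ≤ e.1) else 0) =
      TT u (qin q a b) (a + 1) * TT u (qout q a b) (a + 1) := by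
  have e0 : ∑ μ ∈ ncMatchings q, ∑ ν ∈ ncMatchings q,
      (if (a, b) ∈ μ ∩ ν then (1 + u) ^ #((μ ∩ ν).filter fun e => a + 1 ≤ e.1) else 0) =
      ∑ μ ∈ (ncMatchings q).filter (fun μ => (a, b) ∈ μ),
        ∑ ν ∈ (ncMatchings q).filter (fun μ => (a, b) ∈ μ),
          (1 + u) ^ #((μ ∩ ν).filter fun e => a + 1 ≤ e.1) := by
    rw [sum_filter]
    refine sum_congr rfl fun μ _ => ?_
    rw [sum_filter]
    by_cases h : (a, b) ∈ μ
    · simp [h]
    · simp [h]
  rw [e0, sum_split ha hb hab, TT, TT, sum_mul_sum]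
  refine sum_congr rfl fun α hα => sum_congr rfl fun β hβ => ?_
  rw [sum_split ha hb hab, sum_mul_sum]
  refine sum_congr rfl fun α' hα' => sum_congr rfl fun β' hβ' => ?_
  rw [← pow_add]
  congr 1
  have hα := mem_nc.1 hα
  have hβ := mem_nc.1 hβ
  have hα' := mem_nc.1 hα'
  have hβ' := mem_nc.1 hβ'
  rw [← card_union_of_disjoint]
  · congr 1
    ext e
    simp only [mem_filter, mem_inter, mem_insert, mem_union]
    constructor
    · rintro ⟨⟨rfl | h1 | h1, h2⟩, h3⟩
      · simp at h3
      · rcases h2 with rfl | h2 | h2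
        · simp at h3
        · exact Or.inl ⟨⟨h1, h2⟩, h3⟩
        · have := in_facts hα h1; have := out_facts hβ' h2; omega
      · rcases h2 with rfl | h2 | h2
        · simp at h3
        · have := in_facts hα' h2; have := out_facts hβ h1; omega
        · exact Or.inr ⟨⟨h1, h2⟩, h3⟩
    · rintro (⟨⟨h1, h2⟩, h3⟩ | ⟨⟨h1, h2⟩, h3⟩)
      · exact ⟨⟨Or.inr (Or.inl h1), Or.inr (Or.inl h2)⟩, h3⟩
      · exact ⟨⟨Or.inr (Or.inr h1), Or.inr (Or.inr h2)⟩, h3⟩
  · refine disjoint_left.2 fun e h1 h2 => ?_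
    have := in_facts hα (mem_inter.1 (mem_filter.1 h1).1).1
    have := out_facts hβ (mem_inter.1 (mem_filter.1 h2).1).1
    omega

theorem TT_eq (u : ℝ) (q : Finset ℕ) (θ : ℕ) :
    TT u q θ = tt u #(q.filter (θ ≤ ·)) #(q.filter (· < θ)) := by
  induction hm : #(q.filter (θ ≤ ·)) using Nat.strong_induction_on generalizing q θ with
  | _ m ih =>
  rcases (q.filter (θ ≤ ·)).eq_empty_or_nonempty with h0 | hq
  · rw [h0, card_empty] at hm
    subst hm
    have hlt : ∀ x ∈ q, x < θ := fun x hx => by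
      by_contra hc
      have : x ∈ q.filter (θ ≤ ·) := mem_filter.2 ⟨hx, not_lt.1 hc⟩
      rw [h0] at this
      exact notMem_empty _ this
    rw [tt_zero, filter_true_of_mem hlt, ← card_nc, TT]
    have : ∀ μ ∈ ncMatchings q, ∀ ν ∈ ncMatchings q,
        (1 + u) ^ #((μ ∩ ν).filter fun e => θ ≤ e.1) = 1 := by
      intro μ hμ ν _
      rw [filter_false_of_mem, card_empty, pow_zero]
      intro e he
      have := hlt _ ((mem_nc.1 hμ).1 e (mem_inter.1 he).1).1
      omega
    rw [sum_congr rfl fun μ hμ => sum_congr rfl (this μ hμ)]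
    simp [sq]
  · set a := (q.filter (θ ≤ ·)).min' hq with ha
    have haq' : a ∈ q.filter (θ ≤ ·) := min'_mem _ hq
    obtain ⟨haq, hθa⟩ := mem_filter.1 haq'
    have hmin : ∀ x ∈ q, θ ≤ x → a ≤ x := fun x hx h => min'_le _ x (mem_filter.2 ⟨hx, h⟩)
    set r := q.filter (a < ·) with hr
    have hqr : q.filter (θ ≤ ·) = insert a r := by
      ext x
      simp only [hr, mem_insert, mem_filter]
      constructor
      · rintro ⟨hx, h⟩
        have := hmin x hx h
        rcases eq_or_lt_of_le this with h | h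
        · exact Or.inl h.symm
        · exact Or.inr ⟨hx, h⟩
      · rintro (rfl | h)
        · exact ⟨haq, hθa⟩
        · exact ⟨h.1, by omega⟩
    have har : a ∉ r := fun h => lt_irrefl _ (mem_filter.1 h).2
    have hcard : m = #r + 1 := by rw [← hm, hqr, card_insert_of_notMem har]
    have key : ∀ μ ∈ ncMatchings q, ∀ ν ∈ ncMatchings q,
        (1 + u) ^ #((μ ∩ ν).filter fun e => θ ≤ e.1) =
          (1 + u) ^ #((μ ∩ ν).filter fun e => a + 1 ≤ e.1) + u * ∑ b ∈ r,
            (if (a, b) ∈ μ ∩ ν then (1 + u) ^ #((μ ∩ ν).filter fun e => a + 1 ≤ e.1) else 0) := by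
      intro μ hμ ν _
      have hμ := mem_nc.1 hμ
      have k1 := sum_ite_arc hμ a (μ ∩ ν) inter_subset_left
      have k2 := card_filter_fst_le hμ a (μ ∩ ν) inter_subset_left
      have k3 : #((μ ∩ ν).filter fun e => θ ≤ e.1) =
          #((μ ∩ ν).filter fun e => a + 1 ≤ e.1) + #((μ ∩ ν).filter fun e => e.1 = a) := by
        rw [← card_union_of_disjoint]
        · congr 1
          ext e
          simp only [mem_filter, mem_union]
          constructor
          · rintro ⟨h1, h2⟩
            have := hmin _ (hμ.1 e (mem_inter.1 h1).1).1 h2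
            rcases eq_or_lt_of_le this with h | h
            · exact Or.inr ⟨h1, h.symm⟩
            · exact Or.inl ⟨h1, h⟩
          · rintro (⟨h1, h2⟩ | ⟨h1, h2⟩) <;> exact ⟨h1, by omega⟩
        · refine disjoint_left.2 fun e h1 h2 => ?_
          have := (mem_filter.1 h1).2
          have := (mem_filter.1 h2).2
          omega
      have k4 : ∑ b ∈ r,
          (if (a, b) ∈ μ ∩ ν then (1 + u) ^ #((μ ∩ ν).filter fun e => a + 1 ≤ e.1) else 0) =
          (1 + u) ^ #((μ ∩ ν).filter fun e => a + 1 ≤ e.1) *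
            (#((μ ∩ ν).filter fun e => e.1 = a) : ℝ) := by
        rw [← k1]
        push_cast
        rw [mul_sum]
        refine sum_congr rfl fun b _ => ?_
        split_ifs <;> simp
      rw [k3, k4]
      rcases Nat.le_one_iff_eq_zero_or_eq_one.1 k2 with h | h <;> rw [h] <;> simp
      ring
    have e1 : TT u q θ = TT u q (a + 1) + u * ∑ b ∈ r,
        TT u (qin q a b) (a + 1) * TT u (qout q a b) (a + 1) := by
      rw [TT, sum_congr rfl fun μ hμ => sum_congr rfl (key μ hμ)]
      simp only [sum_add_distrib, ← mul_sum]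
      congr 2
      rw [sum_congr rfl fun μ _ => sum_comm, sum_comm]
      refine sum_congr rfl fun b hb => ?_
      obtain ⟨hbq, hab⟩ := mem_filter.1 hb
      exact TT_split u haq hbq hab
    have f1 : q.filter (a + 1 ≤ ·) = r := rfl
    have f2 : q.filter (· < a + 1) = insert a (q.filter (· < θ)) := by
      ext x
      simp only [mem_insert, mem_filter]
      constructor
      · rintro ⟨hx, h⟩
        have := hmin x hx
        by_cases h2 : x = a
        · exact Or.inl h2
        · exact Or.inr ⟨hx, by omega⟩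
      · rintro (rfl | h)
        · exact ⟨haq, by omega⟩
        · exact ⟨h.1, by omega⟩
    have f3 : a ∉ q.filter (· < θ) := fun h => by have := (mem_filter.1 h).2; omega
    rw [e1, ih #r (by omega) q (a + 1) (by rw [f1]), f2, card_insert_of_notMem f3, hcard, tt_succ,
      ← sum_rank r (fun i l => tt u i 0 * tt u l #(q.filter (· < θ)))]
    congr 2
    refine sum_congr rfl fun b hb => ?_
    obtain ⟨hbq, hab⟩ := mem_filter.1 hb
    have g1 : (qin q a b).filter (a + 1 ≤ ·) = r.filter (· < b) := by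
      ext x; simp only [qin, hr, mem_filter]
      constructor
      · rintro ⟨⟨h1, h2, h3⟩, -⟩; exact ⟨⟨h1, h2⟩, h3⟩
      · rintro ⟨⟨h1, h2⟩, h3⟩; exact ⟨⟨h1, h2, h3⟩, h2⟩
    have g2 : (qin q a b).filter (· < a + 1) = ∅ := by
      refine filter_false_of_mem fun x hx => ?_
      have := (mem_filter.1 hx).2
      omega
    have g3 : (qout q a b).filter (a + 1 ≤ ·) = r.filter (b < ·) := by
      ext x; simp only [qout, hr, mem_filter]
      constructor
      · rintro ⟨⟨h1, h2⟩, h3⟩; exact ⟨⟨h1, by omega⟩, by omega⟩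
      · rintro ⟨⟨h1, h2⟩, h3⟩; exact ⟨⟨h1, Or.inr h3⟩, h2⟩
    have g4 : (qout q a b).filter (· < a + 1) = q.filter (· < θ) := by
      ext x; simp only [qout, mem_filter]
      constructor
      · rintro ⟨⟨h1, h2⟩, h3⟩
        have := hmin x h1
        exact ⟨h1, by omega⟩
      · rintro ⟨h1, h2⟩; exact ⟨⟨h1, by omega⟩, by omega⟩
    have l1 : #(r.filter (· < b)) < m := by
      have := card_filter_le r (· < b); omega
    have l2 : #(r.filter (b < ·)) < m := by
      have := card_filter_le r (b < ·); omega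
    rw [ih _ l1 _ _ (by rw [g1]), ih _ l2 _ _ (by rw [g3]), g2, g4, card_empty]

theorem card_systems (n : ℕ) : #(systems n) = catalan n ^ 2 := by
  rw [systems, card_product, card_nc, Nat.card_Icc, show 2 * n + 1 - 1 = 2 * n by omega,
    cN_two_mul, sq]

theorem sum_systems (u : ℝ) (n : ℕ) :
    ∑ p ∈ systems n, (1 + u) ^ common p = tt u (2 * n) 0 := by
  have := TT_eq u (Icc 1 (2 * n)) 0
  rw [filter_true_of_mem (fun _ _ => Nat.zero_le _), filter_false_of_mem (fun _ _ => by omega),
    Nat.card_Icc, show 2 * n + 1 - 1 = 2 * n by omega, card_empty] at this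
  rw [← this, TT, systems, sum_product]
  refine sum_congr rfl fun μ _ => sum_congr rfl fun ν _ => ?_
  rw [filter_true_of_mem (fun _ _ => Nat.zero_le _)]
  rfl

end Pool.Agent.MP_3d3bcd_pr.H93
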