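import Pool.Agent.MP_3d3bcd_pr.H93.Conv

set_option autoImplicit false

open Finset Filter Topology

namespace Pool.Agent.MP_3d3bcd_pr.H93

/-- `x m = 1 + a / m + o (1 / m)` -/
def Lim1 (x : ℕ → ℝ) (a : ℝ) : Prop := Tendsto (fun m : ℕ => (m : ℝ) * (x m - 1)) atTop (𝓝 a)

theorem Lim1.tendsto_one {x : ℕ → ℝ} {a : ℝ} (h : Lim1 x a) : Tendsto x atTop (𝓝 1) := by
  have h1 := (Tendsto.mul h (tendsto_inv_atTop_nhds_zero_nat (𝕜 := ℝ))).add_const 1
  rw [mul_zero, zero_add] at h1
  refine h1.congr' ?_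
  filter_upwards [eventually_gt_atTop 0] with m hm
  have : (m : ℝ) ≠ 0 := by positivity
  field_simp
  ring

theorem Lim1.mul {x y : ℕ → ℝ} {a b : ℝ} (hx : Lim1 x a) (hy : Lim1 y b) :
    Lim1 (fun m => x m * y m) (a + b) := by
  have h1 := (Tendsto.mul hx hy.tendsto_one).add hy
  rw [mul_one] at h1
  refine h1.congr fun m => ?_
  ring

theorem Lim1.congr' {x y : ℕ → ℝ} {a : ℝ} (hx : Lim1 x a) (h : x =ᶠ[atTop] y) : Lim1 y a := by
  refine Tendsto.congr' ?_ hx
  filter_upwards [h] with m hm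
  rw [hm]

theorem Lim1.shift {x : ℕ → ℝ} {a : ℝ} (hx : Lim1 x a) (s : ℕ) : Lim1 (fun m => x (m - s)) a := by
  have h0 : Tendsto (fun m : ℕ => m - s) atTop atTop := tendsto_sub_atTop_nat s
  have h1 := (Tendsto.comp hx h0).add
    (((hx.tendsto_one.comp h0).sub_const 1).const_mul (s : ℝ))
  rw [sub_self, mul_zero, add_zero] at h1
  refine h1.congr' ?_
  filter_upwards [eventually_ge_atTop s] with m hm
  simp only [Function.comp]
  rw [Nat.cast_sub hm]
  ring

theorem lim1_pp_one : Lim1 (fun m => pp (m - 1) / pp m) 3 := by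
  have h0 := tendsto_inv_atTop_nhds_zero_nat (𝕜 := ℝ)
  have h1 : Tendsto (fun m : ℕ => (12 + 3 * (m : ℝ)⁻¹) / (2 - (m : ℝ)⁻¹) ^ 2) atTop
      (𝓝 ((12 + 3 * 0) / (2 - 0) ^ 2)) :=
    Tendsto.div ((h0.const_mul 3).const_add 12) ((h0.const_sub 2).pow 2) (by norm_num)
  rw [show ((12 : ℝ) + 3 * 0) / (2 - 0) ^ 2 = 3 by norm_num] at h1
  refine h1.congr' ?_
  filter_upwards [eventually_ge_atTop 1] with m hm
  obtain ⟨k, rfl⟩ : ∃ k, m = k + 1 := ⟨m - 1, by omega⟩
  have hp := pp_pos k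
  have hk : (0 : ℝ) ≤ k := Nat.cast_nonneg k
  rw [Nat.add_sub_cancel, pp_succ]
  push_cast
  have e : (2 : ℝ) - ((k : ℝ) + 1)⁻¹ = (2 * k + 1) / (k + 1) := by field_simp; ring
  rw [e]
  field_simp
  ring

theorem lim1_pp (s : ℕ) : Lim1 (fun m => pp (m - s) / pp m) (3 * s) := by
  induction s with
  | zero =>
    have : ∀ m : ℕ, (m : ℝ) * (pp (m - 0) / pp m - 1) = 0 := fun m => by
      rw [Nat.sub_zero, div_self (pp_pos m).ne']; simp
    simp only [Lim1, this]
    simp
  | succ s ih =>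
    have := (lim1_pp_one.shift s).mul ih
    rw [show (3 : ℝ) + 3 * s = 3 * ((s + 1 : ℕ) : ℝ) by push_cast; ring] at this
    refine this.congr' (Eventually.of_forall fun m => ?_)
    have := pp_pos (m - s)
    have := pp_pos m
    simp only [Nat.sub_sub]
    field_simp

theorem lim1_rr (s : ℕ) : Lim1 (fun m => rr m s) (2 * s) := by
  have h1 : Lim1 (fun m => ((m - s : ℕ) : ℝ) / m) (-s) := by
    refine tendsto_const_nhds.congr' ?_
    filter_upwards [eventually_ge_atTop (s + 1)] with m hm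
    have : (m : ℝ) ≠ 0 := by
      have : 0 < m := by omega
      positivity
    rw [Nat.cast_sub (by omega)]
    field_simp
    ring
  have := h1.mul (lim1_pp s)
  rw [show -(s : ℝ) + 3 * s = 2 * s by ring] at this
  refine this.congr' (Eventually.of_forall fun m => ?_)
  simp only [rr]
  rw [div_mul_div_comm]

theorem BB_tendsto (k : ℕ) : Tendsto (BB k) atTop (𝓝 1) := by
  obtain ⟨C, _, h⟩ := BB_close k (Nat.cast_nonneg k)
  have h1 : Tendsto (fun m : ℕ => C / √(m : ℝ)) atTop (𝓝 0) :=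
    tendsto_const_nhds.div_atTop (Real.tendsto_sqrt_atTop.comp tendsto_natCast_atTop_atTop)
  rw [tendsto_iff_dist_tendsto_zero]
  refine squeeze_zero' (Eventually.of_forall fun _ => dist_nonneg) ?_ h1
  filter_upwards [eventually_ge_atTop 1] with m hm
  rw [Real.dist_eq]
  refine h k m hm ?_
  have : (1 : ℝ) ≤ √(m : ℝ) := Real.one_le_sqrt.2 (by exact_mod_cast hm)
  exact le_mul_of_one_le_right (Nat.cast_nonneg k) this

theorem lim1_BB (k : ℕ) : Lim1 (BB (k + 1)) (3 * (k + 1) * mu) := by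
  have hS := S0_pos
  have hSk : 0 < S0 ^ (k + 1) := pow_pos hS _
  obtain ⟨C, hC, hCb⟩ := BB_bdd k (Nat.cast_nonneg k)
  have hCb' : ∀ s, 1 ≤ s → BB k s ≤ C := fun s hs => hCb k s hs
    (le_mul_of_one_le_right (Nat.cast_nonneg k) (Real.one_le_sqrt.2 (by exact_mod_cast hs)))
  set F : ℕ → ℕ → ℝ := fun m s =>
    PP (k + 1) s * (if 2 * s ≤ m then (m : ℝ) * (rr m s - 1) else -m) with hF
  set H : ℕ → ℕ → ℝ := fun m i =>
    if 2 * i < m then (i : ℝ) * pp i * (PP (k + 1) (m - i) / pp m) else 0 with hH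
  have hFb : ∀ m, 1 ≤ m → ∀ s, ‖F m s‖ ≤ 6 * ((s : ℝ) * PP (k + 1) s) := by
    intro m hm s
    have hm' : (0 : ℝ) < m := by exact_mod_cast hm
    have hP := PP_nonneg (k + 1) s
    have hs0 : (0 : ℝ) ≤ s := Nat.cast_nonneg s
    rw [hF, Real.norm_eq_abs, abs_mul, abs_of_nonneg hP]
    have : |if 2 * s ≤ m then (m : ℝ) * (rr m s - 1) else -m| ≤ 6 * s := by
      split_ifs with h
      · have h1 := rr_ge m s hm (by omega)
        have h2 := rr_le m s hm h
        have h3 : (m : ℝ) * ((s : ℝ) / m) = s := by field_simp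
        rw [abs_le]
        constructor <;> nlinarith
      · have : (m : ℝ) ≤ 2 * s := by exact_mod_cast (by omega : m ≤ 2 * s)
        rw [abs_neg, abs_of_pos hm']
        linarith
    nlinarith
  have hFs : Summable fun s : ℕ => 6 * ((s : ℝ) * PP (k + 1) s) :=
    (hasSum_mul_PP (k + 1)).summable.mul_left 6
  have hFl : Tendsto (fun m => ∑' s, F m s) atTop (𝓝 (∑' s : ℕ, PP (k + 1) s * (2 * s))) := by
    refine tendsto_tsum_of_dominated_convergence hFs (fun s => ?_) ?_
    · refine (Tendsto.const_mul (PP (k + 1) s) (lim1_rr s)).congr' ?_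
      filter_upwards [eventually_ge_atTop (2 * s)] with m hm
      simp only [hF, if_pos hm]
    · filter_upwards [eventually_ge_atTop 1] with m hm using hFb m hm
  have hHb : ∀ m, 1 ≤ m → ∀ i, ‖H m i‖ ≤ (i : ℝ) * pp i * (8 * C * (k + 1) * S0 ^ k) := by
    intro m hm i
    have h0 : 0 ≤ (i : ℝ) * pp i := mul_nonneg (Nat.cast_nonneg i) (pp_pos i).le
    simp only [hH]
    split_ifs with h
    · have h1 := far_term k m (m - i) C hm (by omega) (by omega) (hCb' _ (by omega))
      have h2 : 0 ≤ PP (k + 1) (m - i) / pp m := div_nonneg (PP_nonneg _ _) (pp_pos m).le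
      rw [Real.norm_eq_abs, abs_of_nonneg (mul_nonneg h0 h2)]
      gcongr
    · rw [norm_zero]; positivity
  have hHl : Tendsto (fun m => ∑' i, H m i) atTop
      (𝓝 (∑' i : ℕ, (i : ℝ) * pp i * ((k + 1) * S0 ^ k))) := by
    refine tendsto_tsum_of_dominated_convergence (summable_mul_pp.mul_right
      (8 * C * (k + 1) * S0 ^ k)) (fun i => ?_) ?_
    · have h1 := (((BB_tendsto k).comp (tendsto_sub_atTop_nat i)).mul
        (lim1_pp i).tendsto_one).const_mul ((i : ℝ) * pp i * ((k + 1) * S0 ^ k))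
      rw [mul_one, mul_one] at h1
      refine h1.congr' ?_
      filter_upwards [eventually_gt_atTop (2 * i)] with m hm
      simp only [hH, if_pos hm, Function.comp]
      rw [PP_eq]
      ring
    · filter_upwards [eventually_ge_atTop 1] with m hm using hHb m hm
  have v1 : ∑' s : ℕ, PP (k + 1) s * (2 * s) = 2 * ((k + 1) * mu) * S0 ^ (k + 1) := by
    have := ((hasSum_mul_PP (k + 1)).mul_left 2).tsum_eq
    rw [show 2 * (((k : ℝ) + 1) * mu) * S0 ^ (k + 1) =
      2 * (((k + 1 : ℕ) : ℝ) * S0 ^ (k + 1) * (S1 / S0)) by rw [mu]; push_cast; ring, ← this]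
    exact tsum_congr fun s => by ring
  have v2 : ∑' i : ℕ, (i : ℝ) * pp i * ((k + 1) * S0 ^ k) = (k + 1) * mu * S0 ^ (k + 1) := by
    rw [tsum_mul_right, ← S1, mu]
    field_simp
    ring
  have hid : ∀ m : ℕ, 1 ≤ m →
      (m : ℝ) * (BB (k + 1) m - 1) = ((∑' s, F m s) + ∑' i, H m i) / S0 ^ (k + 1) := by
    intro m hm
    have hm' : (0 : ℝ) < m := by exact_mod_cast hm
    have hpm := pp_pos m
    set A : ℕ → ℝ := fun s => if 2 * s ≤ m then (m : ℝ) * (PP (k + 1) s * rr m s) else 0 with hA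
    have a1 : HasSum A (∑ s ∈ range (m + 1), A s) :=
      hasSum_sum_of_ne_finset_zero fun s hs => by
        have : m + 1 ≤ s := by simpa using hs
        simp only [hA]
        rw [if_neg (by omega)]
    have a2 : ∑' s, F m s = ∑ s ∈ range (m + 1), A s - m * S0 ^ (k + 1) := by
      rw [← (a1.sub ((hasSum_PP (k + 1)).mul_left (m : ℝ))).tsum_eq]
      refine tsum_congr fun s => ?_
      simp only [hF, hA]
      split_ifs <;> ring
    have a3 : ∑' i, H m i = ∑ s ∈ range (m + 1), H m (m - s) := by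
      have := sum_range_reflect (H m) (m + 1)
      simp only [Nat.add_sub_cancel] at this
      rw [this]
      refine tsum_eq_sum fun s hs => ?_
      have : m + 1 ≤ s := by simpa using hs
      simp only [hH]
      rw [if_neg (by omega)]
    have a4 : ∑ s ∈ range (m + 1), A s + ∑ s ∈ range (m + 1), H m (m - s) =
        m * (BB (k + 1) m * S0 ^ (k + 1)) := by
      rw [BB_eq _ _ hm, mul_sum, ← sum_add_distrib]
      refine sum_congr rfl fun s hs => ?_
      have hsm : s ≤ m := Nat.lt_succ_iff.1 (mem_range.1 hs)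
      simp only [hA, hH]
      by_cases h : 2 * s ≤ m
      · rw [if_pos h, if_neg (by omega), add_zero]
      · rw [if_neg h, if_pos (by omega), zero_add, Nat.sub_sub_self hsm, rr]
        field_simp
    rw [eq_div_iff hSk.ne', a2, a3]
    linear_combination -a4
  have := (hFl.add hHl).div_const (S0 ^ (k + 1))
  rw [v1, v2, show (2 * (((k : ℝ) + 1) * mu) * S0 ^ (k + 1) + (k + 1) * mu * S0 ^ (k + 1)) /
    S0 ^ (k + 1) = 3 * (k + 1) * mu by field_simp; ring] at this
  refine this.congr' ?_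
  filter_upwards [eventually_ge_atTop 1] with m hm
  exact (hid m hm).symm

/-- success probability of the comparison binomial law -/
noncomputable def cc : ℝ := S0 / 16

theorem cc_pos : 0 < cc := div_pos S0_pos (by norm_num)

theorem cc_le : cc ≤ 1 / 8 := by rw [cc]; linarith [S0_le]

/-- correction factor -/
noncomputable def rho (n k : ℕ) : ℝ := if k ≤ n then BB k (n - k) * (pp (n - k) / pp n) else 0

theorem aa_eq (n k : ℕ) :
    aa n k = (catalan n : ℝ) ^ 2 * (((2 * n).choose k : ℝ) * cc ^ k * rho n k) := by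
  rw [aa, rho]
  split_ifs with h
  · have e : (catalan n : ℝ) ^ 2 = pp n * (16 ^ (n - k) * 16 ^ k) := by
      rw [← pow_add, Nat.sub_add_cancel h, pp]; field_simp
    have := pp_pos n
    rw [coeff_MM_pow, PP_eq, e, cc, div_pow]
    field_simp
  · simp

theorem lim1_rho (k : ℕ) : Lim1 (fun n => rho n (k + 1)) ((k + 1) * (3 * mu + 3)) := by
  have := ((lim1_BB k).shift (k + 1)).mul (lim1_pp (k + 1))
  rw [show 3 * ((k : ℝ) + 1) * mu + 3 * ((k + 1 : ℕ) : ℝ) = (k + 1) * (3 * mu + 3) by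
    push_cast; ring] at this
  refine this.congr' ?_
  filter_upwards [eventually_ge_atTop (k + 1)] with n hn
  rw [rho, if_pos hn]

theorem rho_nonneg (n k : ℕ) : 0 ≤ rho n k := by
  rw [rho]
  split_ifs
  · exact mul_nonneg (BB_nonneg _ _) (div_nonneg (pp_pos _).le (pp_pos _).le)
  · exact le_rfl

theorem rho_crude (n k : ℕ) (hn : 1 ≤ n) : rho n k ≤ 32 * (n : ℝ) ^ 3 := by
  rw [rho]
  split_ifs with h
  · have h1 := pp_pos n
    have h1' := pp_pos (n - k)
    have h2 := pp_ge n hn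
    have hS := S0_pos
    have hS2 := S0_le
    have hk : (0 : ℝ) ≤ k := Nat.cast_nonneg k
    have hSk : 0 < S0 ^ k := pow_pos hS k
    have e : BB k (n - k) * (pp (n - k) / pp n) = PP (k + 1) (n - k) / ((k + 1) * S0 ^ k * pp n) := by
      rw [BB]; field_simp
    rw [e, div_le_iff₀ (by positivity)]
    refine (PP_le _ _).trans ?_
    rw [pow_succ]
    have : S0 ≤ 32 * (n : ℝ) ^ 3 * ((k + 1) * pp n) := by nlinarith
    nlinarith
  · positivity

theorem pp_ratio_le (n k : ℕ) (hn : 1 ≤ n) (hk : 2 * k ≤ n) :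
    pp (n - k) / pp n ≤ 1 + 14 * ((k : ℝ) / n) := by
  have h1 := pp_pos n
  have hm' : (0 : ℝ) < n := by exact_mod_cast hn
  have h2 := pp_mono (Nat.sub_le n k)
  have h3 : 2 * (k : ℝ) ≤ n := by exact_mod_cast hk
  have hs0 : (0 : ℝ) ≤ k := Nat.cast_nonneg k
  simp only at h2
  rw [Nat.cast_sub (by omega)] at h2
  rw [div_le_iff₀ h1]
  have h5 : (0 : ℝ) < n - k := by linarith
  have h6 : (n : ℝ) ^ 4 ≤ (n + 14 * k) * (n - k) ^ 3 := by
    have : ((n : ℝ) + 14 * k) * (n - k) ^ 3 - n ^ 4 =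
        k * ((n - 2 * k) * (11 * n ^ 2 - 17 * n * k + 7 * k ^ 2)) := by ring
    have : 0 ≤ (k : ℝ) * ((n - 2 * k) * (11 * n ^ 2 - 17 * n * k + 7 * k ^ 2)) :=
      mul_nonneg hs0 (mul_nonneg (by linarith) (by nlinarith))
    linarith
  have e : (1 + 14 * ((k : ℝ) / n)) * pp n = (n + 14 * k) * pp n / n := by field_simp
  rw [e, le_div_iff₀ hm']
  have h7 : pp (n - k) * n * ((n : ℝ) - k) ^ 3 ≤ (n + 14 * k) * pp n * ((n : ℝ) - k) ^ 3 := by
    nlinarith
  exact le_of_mul_le_mul_right h7 (by positivity)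

theorem rho_close (K : ℝ) (hK : 0 ≤ K) (ε : ℝ) (hε : 0 < ε) :
    ∀ᶠ n : ℕ in atTop, ∀ k : ℕ, (k : ℝ) ≤ K * √n → |rho n k - 1| ≤ ε := by
  obtain ⟨C, hC, h⟩ := BB_close (2 * K) (by positivity)
  have hsq : Tendsto (fun n : ℕ => √(n : ℝ)) atTop atTop :=
    Real.tendsto_sqrt_atTop.comp tendsto_natCast_atTop_atTop
  filter_upwards [hsq.eventually_ge_atTop (2 * K), hsq.eventually_ge_atTop ((16 * C + 14 * K) / ε),
    eventually_ge_atTop 1] with n h1 h2 hn k hk
  have hn' : (1 : ℝ) ≤ n := by exact_mod_cast hn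
  set t := √(n : ℝ) with ht
  have ht1 : 1 ≤ t := Real.one_le_sqrt.2 hn'
  have e2 : t * t = n := Real.mul_self_sqrt (Nat.cast_nonneg n)
  have hk2 : 2 * k ≤ n := by
    have : 2 * (k : ℝ) ≤ n := by nlinarith
    exact_mod_cast this
  have hm1 : 1 ≤ n - k := by omega
  have hs : t ≤ 2 * √((n - k : ℕ) : ℝ) := by
    rw [ht, Real.sqrt_le_left (by positivity), mul_pow, Real.sq_sqrt (Nat.cast_nonneg _),
      Nat.cast_sub (by omega)]
    have : 2 * (k : ℝ) ≤ n := by exact_mod_cast hk2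
    linarith
  have hb := h k (n - k) hm1 (by nlinarith)
  have hb2 : |BB k (n - k) - 1| ≤ 2 * C / t := by
    refine hb.trans ?_
    rw [div_le_div_iff₀ (by linarith) (by linarith)]
    nlinarith
  have hr1 : 1 ≤ pp (n - k) / pp n := by
    rw [le_div_iff₀ (pp_pos n), one_mul]; exact pp_antitone (Nat.sub_le n k)
  have hr2 := pp_ratio_le n k hn hk2
  have hr3 : (k : ℝ) / n ≤ K / t := by
    rw [div_le_div_iff₀ (by linarith) (by linarith)]
    nlinarith
  have hr4 : (k : ℝ) / n ≤ 1 / 2 := by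
    rw [div_le_div_iff₀ (by linarith) (by norm_num)]
    have : 2 * (k : ℝ) ≤ n := by exact_mod_cast hk2
    linarith
  rw [rho, if_pos (by omega)]
  set R := pp (n - k) / pp n
  have e : BB k (n - k) * R - 1 = (BB k (n - k) - 1) * R + (R - 1) := by ring
  have f1 : |(BB k (n - k) - 1) * R| ≤ 2 * C / t * 8 := by
    rw [abs_mul, abs_of_nonneg (by linarith : 0 ≤ R)]
    gcongr
    linarith
  have f2 : |R - 1| ≤ 14 * (K / t) := by
    rw [abs_of_nonneg (by linarith)]; linarith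
  have f3 : 2 * C / t * 8 + 14 * (K / t) ≤ ε := by
    rw [div_le_iff₀ hε] at h2
    rw [show 2 * C / t * 8 + 14 * (K / t) = (16 * C + 14 * K) / t by ring,
      div_le_iff₀ (by linarith)]
    linarith
  rw [e]
  exact (abs_add_le _ _).trans (by linarith)

end Pool.Agent.MP_3d3bcd_pr.H93
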