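import Pool.Agent.MP_3d3bcd_pr.H93.Defs

set_option autoImplicit false

open Finset

namespace Pool.Agent.MP_3d3bcd_pr.H93

theorem mem_nc {q : Finset ℕ} {μ : Finset (ℕ × ℕ)} : μ ∈ ncMatchings q ↔ IsNCMatching q μ := by
  classical
  simp only [ncMatchings, mem_filter, mem_powerset, and_iff_right_iff_imp]
  intro h e he
  exact mem_product.2 ⟨(h.1 e he).1, (h.1 e he).2.1⟩

theorem IsNCMatching.eq_of {q : Finset ℕ} {μ : Finset (ℕ × ℕ)} (h : IsNCMatching q μ)
    {e f : ℕ × ℕ} (he : e ∈ μ) (hf : f ∈ μ)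
    (hx : e.1 = f.1 ∨ e.1 = f.2 ∨ e.2 = f.1 ∨ e.2 = f.2) : e = f := by
  rcases hx with hx | hx | hx | hx
  · exact (h.2.1 e.1 (h.1 e he).1).unique ⟨he, Or.inl rfl⟩ ⟨hf, Or.inl hx.symm⟩
  · exact (h.2.1 e.1 (h.1 e he).1).unique ⟨he, Or.inl rfl⟩ ⟨hf, Or.inr hx.symm⟩
  · exact (h.2.1 e.2 (h.1 e he).2.1).unique ⟨he, Or.inr rfl⟩ ⟨hf, Or.inl hx.symm⟩
  · exact (h.2.1 e.2 (h.1 e he).2.1).unique ⟨he, Or.inr rfl⟩ ⟨hf, Or.inr hx.symm⟩

theorem isNC_of {q : Finset ℕ} {μ : Finset (ℕ × ℕ)}
    (h1 : ∀ e ∈ μ, e.1 ∈ q ∧ e.2 ∈ q ∧ e.1 < e.2)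
    (h2 : ∀ x ∈ q, ∃ e ∈ μ, e.1 = x ∨ e.2 = x)
    (h3 : ∀ e ∈ μ, ∀ f ∈ μ, (e.1 = f.1 ∨ e.1 = f.2 ∨ e.2 = f.1 ∨ e.2 = f.2) → e = f)
    (h4 : ∀ e ∈ μ, ∀ f ∈ μ, ¬ (e.1 < f.1 ∧ f.1 < e.2 ∧ e.2 < f.2)) : IsNCMatching q μ := by
  refine ⟨h1, fun x hx => ?_, h4⟩
  obtain ⟨e, he, hex⟩ := h2 x hx
  refine ⟨e, ⟨he, hex⟩, fun f hf => h3 f hf.1 e he ?_⟩
  have := hf.2
  omega

/-- points strictly between `a` and `b` -/
def qin (q : Finset ℕ) (a b : ℕ) : Finset ℕ := q.filter fun x => a < x ∧ x < b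

/-- points strictly outside the interval from `a` to `b` -/
def qout (q : Finset ℕ) (a b : ℕ) : Finset ℕ := q.filter fun x => x < a ∨ b < x

theorem arc_cases {q : Finset ℕ} {μ : Finset (ℕ × ℕ)} (h : IsNCMatching q μ) {a b : ℕ}
    (hab : (a, b) ∈ μ) {e : ℕ × ℕ} (he : e ∈ μ) :
    e = (a, b) ∨ (a < e.1 ∧ e.2 < b) ∨
      ((e.1 < a ∨ b < e.1) ∧ (e.2 < a ∨ b < e.2)) := by
  by_cases h0 : e = (a, b)
  · exact Or.inl h0
  · right
    have h1 : ¬ (e.1 = a ∨ e.1 = b ∨ e.2 = a ∨ e.2 = b) := fun hx => h0 (h.eq_of he hab hx)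
    have h2 := h.2.2 e he _ hab
    have h3 := h.2.2 _ hab e he
    have h4 := (h.1 e he).2.2
    have h5 := (h.1 _ hab).2.2
    simp only at h2 h3 h5
    omega

theorem isNC_in {q : Finset ℕ} {μ : Finset (ℕ × ℕ)} (h : IsNCMatching q μ) {a b : ℕ}
    (hab : (a, b) ∈ μ) :
    IsNCMatching (qin q a b) (μ.filter fun e => a < e.1 ∧ e.1 < b) := by
  apply isNC_of
  · intro e he
    obtain ⟨he, h1⟩ := mem_filter.1 he
    have h2 := h.1 e he
    have h3 := arc_cases h hab he
    have h4 : e = (a, b) → e.1 = a := fun hh => by rw [hh]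
    simp only [qin, mem_filter]
    refine ⟨⟨h2.1, h1⟩, ⟨h2.2.1, ?_⟩, h2.2.2⟩
    have := h2.2.2
    rcases h3 with h3 | h3 | h3
    · have := h4 h3; omega
    · omega
    · omega
  · intro x hx
    obtain ⟨hx, h1⟩ := mem_filter.1 hx
    obtain ⟨e, ⟨he, hex⟩, -⟩ := h.2.1 x hx
    refine ⟨e, mem_filter.2 ⟨he, ?_⟩, hex⟩
    have h2 := (h.1 e he).2.2
    rcases arc_cases h hab he with h3 | h3 | h3
    · subst h3; simp only at hex; omega
    · omega
    · omega
  · intro e he f hf hx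
    exact h.eq_of (mem_filter.1 he).1 (mem_filter.1 hf).1 hx
  · intro e he f hf
    exact h.2.2 e (mem_filter.1 he).1 f (mem_filter.1 hf).1

theorem isNC_out {q : Finset ℕ} {μ : Finset (ℕ × ℕ)} (h : IsNCMatching q μ) {a b : ℕ}
    (hab : (a, b) ∈ μ) :
    IsNCMatching (qout q a b) (μ.filter fun e => e.1 < a ∨ b < e.1) := by
  have h5 : a < b := (h.1 _ hab).2.2
  apply isNC_of
  · intro e he
    obtain ⟨he, h1⟩ := mem_filter.1 he
    have h2 := h.1 e he
    have h3 := arc_cases h hab he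
    have h4 : e = (a, b) → e.1 = a := fun hh => by rw [hh]
    simp only [qout, mem_filter]
    refine ⟨⟨h2.1, h1⟩, ⟨h2.2.1, ?_⟩, h2.2.2⟩
    have := h2.2.2
    rcases h3 with h3 | h3 | h3
    · have := h4 h3; omega
    · omega
    · omega
  · intro x hx
    obtain ⟨hx, h1⟩ := mem_filter.1 hx
    obtain ⟨e, ⟨he, hex⟩, -⟩ := h.2.1 x hx
    refine ⟨e, mem_filter.2 ⟨he, ?_⟩, hex⟩
    have h2 := (h.1 e he).2.2
    rcases arc_cases h hab he with h3 | h3 | h3
    · subst h3; simp only at hex; omega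
    · omega
    · omega
  · intro e he f hf hx
    exact h.eq_of (mem_filter.1 he).1 (mem_filter.1 hf).1 hx
  · intro e he f hf
    exact h.2.2 e (mem_filter.1 he).1 f (mem_filter.1 hf).1

theorem in_facts {q : Finset ℕ} {a b : ℕ} {α : Finset (ℕ × ℕ)} (hα : IsNCMatching (qin q a b) α)
    {e : ℕ × ℕ} (he : e ∈ α) : e.1 ∈ q ∧ e.2 ∈ q ∧ a < e.1 ∧ e.1 < e.2 ∧ e.2 < b := by
  obtain ⟨h1, h2, h3⟩ := hα.1 e he
  simp only [qin, mem_filter] at h1 h2
  exact ⟨h1.1, h2.1, h1.2.1, h3, h2.2.2⟩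

theorem out_facts {q : Finset ℕ} {a b : ℕ} {β : Finset (ℕ × ℕ)} (hβ : IsNCMatching (qout q a b) β)
    {e : ℕ × ℕ} (he : e ∈ β) :
    e.1 ∈ q ∧ e.2 ∈ q ∧ e.1 < e.2 ∧ (e.1 < a ∨ b < e.1) ∧ (e.2 < a ∨ b < e.2) := by
  obtain ⟨h1, h2, h3⟩ := hβ.1 e he
  simp only [qout, mem_filter] at h1 h2
  exact ⟨h1.1, h2.1, h3, h1.2, h2.2⟩

theorem isNC_join {q : Finset ℕ} {a b : ℕ} (ha : a ∈ q) (hb : b ∈ q) (hab : a < b)
    {α β : Finset (ℕ × ℕ)} (hα : IsNCMatching (qin q a b) α) (hβ : IsNCMatching (qout q a b) β) :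
    IsNCMatching q (insert (a, b) (α ∪ β)) := by
  apply isNC_of
  · intro e he
    rcases mem_insert.1 he with rfl | he
    · exact ⟨ha, hb, hab⟩
    · rcases mem_union.1 he with he | he
      · have := in_facts hα he; exact ⟨this.1, this.2.1, this.2.2.2.1⟩
      · have := out_facts hβ he; exact ⟨this.1, this.2.1, this.2.2.1⟩
  · intro x hx
    by_cases h1 : x = a ∨ x = b
    · exact ⟨(a, b), mem_insert_self _ _, by simp only; omega⟩
    · by_cases h2 : a < x ∧ x < b
      · obtain ⟨e, ⟨he, hex⟩, -⟩ := hα.2.1 x (mem_filter.2 ⟨hx, h2⟩)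
        exact ⟨e, mem_insert_of_mem (mem_union_left _ he), hex⟩
      · obtain ⟨e, ⟨he, hex⟩, -⟩ := hβ.2.1 x (mem_filter.2 ⟨hx, by omega⟩)
        exact ⟨e, mem_insert_of_mem (mem_union_right _ he), hex⟩
  · intro e he f hf hx
    rcases mem_insert.1 he with rfl | he
    · rcases mem_insert.1 hf with rfl | hf
      · rfl
      · rcases mem_union.1 hf with hf | hf
        · have := in_facts hα hf; simp only at hx; omega
        · have := out_facts hβ hf; simp only at hx; omega
    · rcases mem_insert.1 hf with rfl | hf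
      · rcases mem_union.1 he with he | he
        · have := in_facts hα he; simp only at hx; omega
        · have := out_facts hβ he; simp only at hx; omega
      · rcases mem_union.1 he with he | he <;> rcases mem_union.1 hf with hf | hf
        · exact hα.eq_of he hf hx
        · have := in_facts hα he; have := out_facts hβ hf; omega
        · have := in_facts hα hf; have := out_facts hβ he; omega
        · exact hβ.eq_of he hf hx
  · intro e he f hf
    rcases mem_insert.1 he with rfl | he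
    · rcases mem_insert.1 hf with rfl | hf
      · simp
      · rcases mem_union.1 hf with hf | hf
        · have := in_facts hα hf; simp only; omega
        · have := out_facts hβ hf; simp only; omega
    · rcases mem_insert.1 hf with rfl | hf
      · rcases mem_union.1 he with he | he
        · have := in_facts hα he; simp only; omega
        · have := out_facts hβ he; simp only; omega
      · rcases mem_union.1 he with he | he <;> rcases mem_union.1 hf with hf | hf
        · exact hα.2.2 e he f hf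
        · have := in_facts hα he; have := out_facts hβ hf; omega
        · have := in_facts hα hf; have := out_facts hβ he; omega
        · exact hβ.2.2 e he f hf

theorem sum_split {M : Type*} [AddCommMonoid M] {q : Finset ℕ} {a b : ℕ} (ha : a ∈ q) (hb : b ∈ q)
    (hab : a < b) (g : Finset (ℕ × ℕ) → M) :
    ∑ μ ∈ (ncMatchings q).filter (fun μ => (a, b) ∈ μ), g μ =
      ∑ α ∈ ncMatchings (qin q a b), ∑ β ∈ ncMatchings (qout q a b), g (insert (a, b) (α ∪ β)) := by
  rw [← sum_product']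
  symm
  refine sum_nbij' (fun p => insert (a, b) (p.1 ∪ p.2))
    (fun μ => (μ.filter fun e => a < e.1 ∧ e.1 < b, μ.filter fun e => e.1 < a ∨ b < e.1))
    ?_ ?_ ?_ ?_ ?_
  · intro p hp
    obtain ⟨h1, h2⟩ := mem_product.1 hp
    exact mem_filter.2 ⟨mem_nc.2 (isNC_join ha hb hab (mem_nc.1 h1) (mem_nc.1 h2)),
      mem_insert_self _ _⟩
  · intro μ hμ
    obtain ⟨h1, h2⟩ := mem_filter.1 hμ
    exact mem_product.2 ⟨mem_nc.2 (isNC_in (mem_nc.1 h1) h2), mem_nc.2 (isNC_out (mem_nc.1 h1) h2)⟩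
  · intro p hp
    obtain ⟨h1, h2⟩ := mem_product.1 hp
    have h1 := mem_nc.1 h1
    have h2 := mem_nc.1 h2
    ext e
    · simp only [mem_filter, mem_insert, mem_union]
      constructor
      · rintro ⟨rfl | h | h, h3⟩
        · simp at h3
        · exact h
        · have := out_facts h2 h; omega
      · intro h
        have := in_facts h1 h
        exact ⟨Or.inr (Or.inl h), by omega⟩
    · simp only [mem_filter, mem_insert, mem_union]
      constructor
      · rintro ⟨rfl | h | h, h3⟩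
        · simp only at h3; omega
        · have := in_facts h1 h; omega
        · exact h
      · intro h
        have := out_facts h2 h
        exact ⟨Or.inr (Or.inr h), by omega⟩
  · intro μ hμ
    obtain ⟨h1, h2⟩ := mem_filter.1 hμ
    have h1 := mem_nc.1 h1
    ext e
    simp only [mem_filter, mem_insert, mem_union]
    constructor
    · rintro (rfl | h | h)
      · exact h2
      · exact h.1
      · exact h.1
    · intro he
      have h4 := (h1.1 e he).2.2
      rcases arc_cases h1 h2 he with h3 | h3 | h3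
      · exact Or.inl h3
      · exact Or.inr (Or.inl ⟨he, by omega⟩)
      · exact Or.inr (Or.inr ⟨he, h3.1⟩)
  · intro p _
    rfl

theorem sum_rank {M : Type*} [AddCommMonoid M] (r : Finset ℕ) (φ : ℕ → ℕ → M) :
    ∑ b ∈ r, φ (#(r.filter (· < b))) (#(r.filter (b < ·))) =
      ∑ i ∈ range #r, φ i (#r - 1 - i) := by
  induction r using Finset.induction_on_max generalizing φ with
  | empty => simp
  | insert a s hs ih =>
    have ha : a ∉ s := fun h => lt_irrefl _ (hs a h)
    rw [sum_insert ha, card_insert_of_notMem ha, sum_range_succ, add_comm]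
    congr 1
    · have := ih (fun i l => φ i (l + 1))
      have e : ∑ i ∈ range #s, φ i (#s + 1 - 1 - i) = ∑ i ∈ range #s, φ i (#s - 1 - i + 1) :=
        sum_congr rfl (fun i hi => by
          have := mem_range.1 hi
          rw [show #s - 1 - i + 1 = #s + 1 - 1 - i by omega])
      rw [e, ← this]
      refine sum_congr rfl fun b hb => ?_
      have hba := hs b hb
      rw [filter_insert, if_neg (by omega), filter_insert, if_pos hba,
        card_insert_of_notMem (fun h => ha (mem_filter.1 h).1)]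
    · rw [filter_insert, if_neg (lt_irrefl _), filter_insert, if_neg (lt_irrefl _),
        filter_true_of_mem hs, filter_false_of_mem (fun x hx => by have := hs x hx; omega)]
      simp

end Pool.Agent.MP_3d3bcd_pr.H93
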